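import Mathlib

/-!
# Groups in which all centralizers of elements have finite index
-/

set_option autoImplicit false

namespace Pool.Agent.T2H35.FJT

theorem fin_ab {A : Type} [Group A] (hc : ∀ a b : A, a * b = b * a) (hfg : Group.FG A)
    (ht : ∀ a : A, IsOfFinOrder a) : Finite A := by
  let _ : CommGroup A := { (inferInstance : Group A) with mul_comm := hc }
  exact CommGroup.finite_of_fg_isMulTorsion A ht

/-- homomorphisms to commuting elements kill commutators -/
theorem comm_le_ker {A B : Type} [Group A] [Group B] (f : A →* B) (hc : ∀ a b : B, a * b = b * a) :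
    commutator A ≤ f.ker := by
  rw [commutator_def, Subgroup.commutator_le]
  intro a _ b _
  rw [MonoidHom.mem_ker, map_commutatorElement, commutatorElement_eq_one_iff_mul_comm]
  exact hc _ _

theorem center_comm {A : Type} [Group A] (a b : Subgroup.center A) : a * b = b * a :=
  Subtype.ext ((Subgroup.mem_center_iff.1 b.2 a))

variable {H : Type} [Group H]

/-- all elements have centralizers of finite index -/
def IsFC (H : Type) [Group H] : Prop := ∀ x : H, (Subgroup.centralizer {x}).FiniteIndex

theorem center_fi (hH : IsFC H) (E : Set H) (hE : E.Finite) :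
    (Subgroup.center (Subgroup.closure E)).FiniteIndex := by
  have hfin : Finite E := hE
  have hall : ∀ e : E, (Subgroup.centralizer {(e : H)}).FiniteIndex := fun e => hH e
  have h1 : (⨅ e : E, Subgroup.centralizer {(e : H)}).FiniteIndex :=
    Subgroup.finiteIndex_iInf hall
  have h2 : ((⨅ e : E, Subgroup.centralizer {(e : H)}).subgroupOf (Subgroup.closure E)).FiniteIndex :=
    inferInstance
  refine Subgroup.finiteIndex_of_le (H := (⨅ e : E, Subgroup.centralizer {(e : H)}).subgroupOf
    (Subgroup.closure E)) ?_
  intro x hx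
  rw [Subgroup.mem_subgroupOf, Subgroup.mem_iInf] at hx
  rw [Subgroup.mem_center_iff]
  intro y
  apply Subtype.ext
  show (y : H) * x = x * y
  have h3 : Subgroup.closure E ≤ Subgroup.centralizer {(x : H)} := by
    rw [Subgroup.closure_le]
    intro e he
    have h4 := hx ⟨e, he⟩
    rw [Subgroup.mem_centralizer_singleton_iff] at h4
    rw [SetLike.mem_coe, Subgroup.mem_centralizer_singleton_iff]
    exact h4.symm
  have h5 := h3 y.2
  rw [Subgroup.mem_centralizer_singleton_iff] at h5
  exact h5

theorem tors_comm (hH : IsFC H) (x : H) (hx : x ∈ commutator H) : IsOfFinOrder x := by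
  -- `x` is in the commutator subgroup of a finitely generated subgroup
  have h1 : ∃ E : Set H, E.Finite ∧ x ∈ ⁅Subgroup.closure E, Subgroup.closure E⁆ := by
    rw [commutator_eq_closure] at hx
    induction hx using Subgroup.closure_induction with
    | mem y hy =>
      obtain ⟨a, b, rfl⟩ := hy
      exact ⟨{a, b}, Set.toFinite _, Subgroup.commutator_mem_commutator
        (Subgroup.subset_closure (by simp)) (Subgroup.subset_closure (by simp))⟩
    | one => exact ⟨∅, Set.finite_empty, one_mem _⟩
    | mul y z _ _ hy hz =>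
      obtain ⟨E, hE, hyE⟩ := hy
      obtain ⟨F, hF, hzF⟩ := hz
      refine ⟨E ∪ F, hE.union hF, mul_mem ?_ ?_⟩
      · exact Subgroup.commutator_mono (Subgroup.closure_mono Set.subset_union_left)
          (Subgroup.closure_mono Set.subset_union_left) hyE
      · exact Subgroup.commutator_mono (Subgroup.closure_mono Set.subset_union_right)
          (Subgroup.closure_mono Set.subset_union_right) hzF
    | inv y _ hy =>
      obtain ⟨E, hE, hyE⟩ := hy
      exact ⟨E, hE, inv_mem hyE⟩
  obtain ⟨E, hE, hxE⟩ := h1
  have hfi := center_fi hH E hE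
  have h2 : ⁅Subgroup.closure E, Subgroup.closure E⁆ =
      (commutator (Subgroup.closure E)).map (Subgroup.closure E).subtype := by
    rw [commutator_def, Subgroup.map_commutator, ← MonoidHom.range_eq_map, Subgroup.range_subtype]
  rw [h2] at hxE
  obtain ⟨y, hy, rfl⟩ := hxE
  have h3 : MonoidHom.transferCenterPow (Subgroup.closure E) y = 1 := by
    exact comm_le_ker _ center_comm hy
  have h4 : y ^ (Subgroup.center (Subgroup.closure E)).index = 1 := by
    have h5 := congrArg (Subtype.val : Subgroup.center (Subgroup.closure E) → _) h3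
    simpa using h5
  rw [isOfFinOrder_iff_pow_eq_one]
  refine ⟨(Subgroup.center (Subgroup.closure E)).index, Nat.pos_of_ne_zero hfi.index_ne_zero, ?_⟩
  have h6 := congrArg (Subtype.val : Subgroup.closure E → H) h4
  simpa using h6

theorem pow_mul_fc (hH : IsFC H) (x y : H) : ∃ n : ℕ, 0 < n ∧ (x * y) ^ n = x ^ n * y ^ n ∧
    Commute (x ^ n) (y ^ n) := by
  obtain ⟨E, hEd⟩ : ∃ E : Set H, E = {x, y} := ⟨_, rfl⟩
  have hE : E.Finite := by rw [hEd]; exact Set.toFinite _
  have hfi := center_fi hH E hE
  have hx : x ∈ Subgroup.closure E := Subgroup.subset_closure (by rw [hEd]; simp)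
  have hy : y ∈ Subgroup.closure E := Subgroup.subset_closure (by rw [hEd]; simp)
  obtain ⟨f, hf⟩ : ∃ f, f = MonoidHom.transferCenterPow (Subgroup.closure E) := ⟨_, rfl⟩
  have hfa : ∀ z : Subgroup.closure E, ((f z : Subgroup.closure E) : H) =
      (z : H) ^ (Subgroup.center (Subgroup.closure E)).index := by
    intro z
    rw [hf]
    simp
  refine ⟨_, Nat.pos_of_ne_zero hfi.index_ne_zero, ?_, ?_⟩
  · have h1 := map_mul f ⟨x, hx⟩ ⟨y, hy⟩
    have h2 := congrArg (fun z : Subgroup.center (Subgroup.closure E) =>
      ((z : Subgroup.closure E) : H)) h1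
    simp only [Subgroup.coe_mul, hfa] at h2
    exact h2
  · have h3 := Subgroup.mem_center_iff.1 (f ⟨x, hx⟩).2 (f ⟨y, hy⟩ : Subgroup.closure E)
    have h4 := congrArg (Subtype.val : Subgroup.closure E → H) h3
    simp only [Subgroup.coe_mul, hfa] at h4
    exact h4.symm

theorem fin_closure (hH : IsFC H) (E : Set H) (hE : E.Finite)
    (ht : ∀ x ∈ Subgroup.closure E, IsOfFinOrder x) : Finite (Subgroup.closure E) := by
  have hfi := center_fi hH E hE
  have hfg : Group.FG (Subgroup.closure E) := by
    rw [Group.fg_iff_subgroup_fg]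
    exact ⟨hE.toFinset, by simp⟩
  have h1 : Group.FG (Subgroup.center (Subgroup.closure E)) :=
    Subgroup.fg_of_index_ne_zero (Subgroup.center (Subgroup.closure E))
  have h2 : ∀ z : Subgroup.center (Subgroup.closure E), IsOfFinOrder z := by
    intro z
    have h3 := ht _ ((z : Subgroup.closure E)).2
    rw [isOfFinOrder_iff_pow_eq_one] at h3 ⊢
    obtain ⟨n, hn, h4⟩ := h3
    exact ⟨n, hn, Subtype.ext (Subtype.ext h4)⟩
  have h3 : Finite (Subgroup.center (Subgroup.closure E)) := fin_ab center_comm h1 h2
  have h4 := Subgroup.card_mul_index (Subgroup.center (Subgroup.closure E))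
  apply Nat.finite_of_card_ne_zero
  rw [← h4]
  exact mul_ne_zero Nat.card_pos.ne' hfi.index_ne_zero

theorem fin_of_bdd (hH : IsFC H) (K : Subgroup H) (hK : ∀ x ∈ K, IsOfFinOrder x) (m : ℕ)
    (hm : ∀ F : Subgroup H, F ≤ K → Finite F → Nat.card F ≤ m) : Finite K ∧ Nat.card K ≤ m := by
  have h0 : ∀ s : Finset K, s.card ≤ m := by
    intro s
    obtain ⟨E, hE⟩ : ∃ E : Set H, E = (Subtype.val '' (s : Set K)) := ⟨_, rfl⟩
    have hEf : E.Finite := by rw [hE]; exact s.finite_toSet.image _
    have hEK : Subgroup.closure E ≤ K := by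
      rw [Subgroup.closure_le, hE]
      rintro _ ⟨x, -, rfl⟩
      exact x.2
    have hfin := fin_closure hH E hEf (fun x hx => hK x (hEK hx))
    refine le_trans ?_ (hm _ hEK hfin)
    have h1 : Nat.card s ≤ Nat.card (Subgroup.closure E) := by
      refine Nat.card_le_card_of_injective (fun x : s => (⟨(x.1 : H), Subgroup.subset_closure ?_⟩ :
        Subgroup.closure E)) ?_
      · rw [hE]
        exact ⟨x.1, x.2, rfl⟩
      · intro x y hxy
        have h2 := congrArg (Subtype.val : Subgroup.closure E → H) hxy
        exact Subtype.ext (Subtype.ext h2)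
    rwa [Nat.card_eq_fintype_card, Fintype.card_coe] at h1
  have hfin : Finite K := by
    by_contra hinf
    rw [not_finite_iff_infinite] at hinf
    obtain ⟨s, hs⟩ := Infinite.exists_subset_card_eq K (m + 1)
    have := h0 s
    omega
  refine ⟨hfin, ?_⟩
  have := Fintype.ofFinite K
  have h1 := h0 Finset.univ
  rwa [Finset.card_univ, ← Nat.card_eq_fintype_card] at h1

end Pool.Agent.T2H35.FJT
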