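import Pool.Agent.T2H35.FJT.Patch
import Pool.Agent.T2H35.FJT.FC

/-!
# Groups acting on trees with commensurable stabilizers which are virtually centralized

The elements of the commutator subgroup that fix a vertex have finite order.
-/

set_option autoImplicit false

namespace Pool.Agent.T2H35.FJT

open MulAction

section

variable {B : Type} [Group B]

/-- the rational abelianization -/
abbrev VQ (B : Type) [Group B] : Type := DivisibleHull (Additive (Abelianization B))

/-- the canonical map -/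
noncomputable def lam (b : B) : VQ B := DivisibleHull.coe (Additive.ofMul (Abelianization.of b))

theorem lam_mul (b c : B) : lam (b * c) = lam b + lam c := by
  unfold lam
  rw [map_mul, ofMul_mul, DivisibleHull.coe_add]

theorem lam_one : lam (1 : B) = 0 := by
  have h := lam_mul (1 : B) 1
  rw [mul_one] at h
  simpa using h

theorem lam_pow (b : B) (n : ℕ) : lam (b ^ n) = (n : ℚ) • lam b := by
  induction n with
  | zero => rw [pow_zero, lam_one]; simp
  | succ n ih => rw [pow_succ, lam_mul, ih]; push_cast; rw [add_smul, one_smul]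

theorem fin_of_lam (hB : IsFC B) (b : B) (h : lam b = 0) : IsOfFinOrder b := by
  have h0 : (0 : VQ B) = DivisibleHull.mk 0 1 := by simp
  unfold lam DivisibleHull.coe at h
  rw [h0, DivisibleHull.mk_eq_mk] at h
  obtain ⟨u, hu⟩ := h
  have h1 : Abelianization.of (b ^ (u : ℕ)) = 1 := by
    have h2 : (u : ℕ) • (Additive.ofMul (Abelianization.of b)) = 0 := by simpa using hu
    rw [map_pow]
    exact h2
  have h2 : b ^ (u : ℕ) ∈ commutator B := by
    rw [← Abelianization.ker_of B]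
    exact h1
  have h3 := tors_comm hB _ h2
  exact (isOfFinOrder_pow.1 h3).resolve_right u.ne_zero

end

section

variable {M V : Type} [Group M] [MulAction M V]

open Classical in
/-- the rational length of an elliptic element -/
noncomputable def bet (B : Subgroup M) (x : M) : VQ B :=
  if h : ∃ k : ℕ, 0 < k ∧ x ^ k ∈ B then ((h.choose : ℚ)⁻¹) • lam (⟨x ^ h.choose, h.choose_spec.2⟩ : B)
  else 0

theorem bet_eq (B : Subgroup M) (x : M) (k : ℕ) (hk : 0 < k) (hx : x ^ k ∈ B) :
    bet B x = ((k : ℚ)⁻¹) • lam (⟨x ^ k, hx⟩ : B) := by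
  have h : ∃ k : ℕ, 0 < k ∧ x ^ k ∈ B := ⟨k, hk, hx⟩
  unfold bet
  rw [dif_pos h]
  obtain ⟨l, hl⟩ : ∃ l, l = h.choose := ⟨_, rfl⟩
  have hl0 : 0 < l := by rw [hl]; exact h.choose_spec.1
  have hlx : x ^ l ∈ B := by rw [hl]; exact h.choose_spec.2
  have h1 : ((h.choose : ℚ)⁻¹) • lam (⟨x ^ h.choose, h.choose_spec.2⟩ : B) =
      ((l : ℚ)⁻¹) • lam (⟨x ^ l, hlx⟩ : B) := by subst hl; rfl
  rw [h1]
  have h2 : (⟨x ^ l, hlx⟩ : B) ^ k = (⟨x ^ k, hx⟩ : B) ^ l := by
    apply Subtype.ext
    show (x ^ l) ^ k = (x ^ k) ^ l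
    rw [← pow_mul, ← pow_mul, mul_comm]
  have h3 := congrArg lam h2
  rw [lam_pow, lam_pow] at h3
  have hk' : (k : ℚ) ≠ 0 := by exact_mod_cast hk.ne'
  have hl' : (l : ℚ) ≠ 0 := by exact_mod_cast hl0.ne'
  have h4 : lam (⟨x ^ l, hlx⟩ : B) = ((k : ℚ)⁻¹ * l) • lam (⟨x ^ k, hx⟩ : B) := by
    rw [mul_smul, ← h3, smul_smul, inv_mul_cancel₀ hk', one_smul]
  rw [h4, smul_smul]
  congr 1
  field_simp

theorem isFC_stab (hcen : ∀ (g : M) (v : V), (Subgroup.centralizer {g}).relIndex (stabilizer M v) ≠ 0)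
    (v : V) : IsFC (stabilizer M v) := by
  intro x
  have : ((Subgroup.centralizer {(x : M)}).subgroupOf (stabilizer M v)).FiniteIndex := ⟨hcen x v⟩
  refine Subgroup.finiteIndex_of_le (H := (Subgroup.centralizer {(x : M)}).subgroupOf
    (stabilizer M v)) ?_
  intro y hy
  rw [Subgroup.mem_subgroupOf, Subgroup.mem_centralizer_singleton_iff] at hy
  rw [Subgroup.mem_centralizer_singleton_iff]
  exact Subtype.ext hy

theorem ex_pow {A B : Subgroup M} (h : A.relIndex B ≠ 0) {x : M} (hx : x ∈ B) :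
    ∃ k : ℕ, 0 < k ∧ x ^ k ∈ A := by
  obtain ⟨n, hn, -, hm⟩ := Subgroup.exists_pow_mem_of_relIndex_ne_zero h hx
  exact ⟨n, hn, hm.1⟩

/-- **elliptic elements of the commutator subgroup have finite order** -/
theorem elliptic_comm (T : SimpleGraph V) (hT : T.IsTree)
    (hadj : ∀ (γ : M) (u v : V), T.Adj u v → T.Adj (γ • u) (γ • v))
    (hinv : ∀ γ : M, ∀ u v : V, T.Adj u v → ¬ (γ • u = v ∧ γ • v = u))
    (hcom : ∀ u v : V, (stabilizer M u).relIndex (stabilizer M v) ≠ 0)
    (hcen : ∀ (g : M) (v : V), (Subgroup.centralizer {g}).relIndex (stabilizer M v) ≠ 0)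
    (v : V) (x : M) (hxv : x • v = v) (hx : x ∈ commutator M) : IsOfFinOrder x := by
  obtain ⟨B, hB⟩ : ∃ B : Subgroup M, B = stabilizer M v := ⟨_, rfl⟩
  have hBp : ∀ (u : V) (y : M), y • u = u → ∃ k : ℕ, 0 < k ∧ y ^ k ∈ B := by
    intro u y hy
    rw [hB]
    exact ex_pow (hcom v u) hy
  have H1 : ∀ (u : V) (y z : M), y • u = u → z • u = u → Multiplicative.ofAdd (bet B (y * z)) =
      Multiplicative.ofAdd (bet B y) * Multiplicative.ofAdd (bet B z) := by
    intro u y z hy hz
    have hfc := isFC_stab hcen u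
    obtain ⟨n, hn, h1, h2⟩ := pow_mul_fc hfc ⟨y, hy⟩ ⟨z, hz⟩
    have h1' : (y * z) ^ n = y ^ n * z ^ n := congrArg Subtype.val h1
    have h2' : Commute (y ^ n) (z ^ n) := congrArg Subtype.val h2
    obtain ⟨k, hk, hky⟩ := hBp u y hy
    obtain ⟨l, hl, hlz⟩ := hBp u z hz
    have e1 : y ^ (n * (k * l)) ∈ B := by
      have : y ^ (n * (k * l)) = (y ^ k) ^ (n * l) := by rw [← pow_mul]; ring_nf
      rw [this]
      exact pow_mem hky _
    have e2 : z ^ (n * (k * l)) ∈ B := by
      have : z ^ (n * (k * l)) = (z ^ l) ^ (n * k) := by rw [← pow_mul]; ring_nf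
      rw [this]
      exact pow_mem hlz _
    have e3 : (y * z) ^ (n * (k * l)) = y ^ (n * (k * l)) * z ^ (n * (k * l)) := by
      rw [pow_mul, h1', h2'.mul_pow, ← pow_mul, ← pow_mul]
    have e4 : (y * z) ^ (n * (k * l)) ∈ B := by rw [e3]; exact mul_mem e1 e2
    have hpos : 0 < n * (k * l) := by positivity
    show Multiplicative.ofAdd (bet B (y * z)) =
      Multiplicative.ofAdd (bet B y) * Multiplicative.ofAdd (bet B z)
    rw [← ofAdd_add, bet_eq B _ _ hpos e4, bet_eq B _ _ hpos e1, bet_eq B _ _ hpos e2, ← smul_add,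
      ← lam_mul]
    congr 3
    exact Subtype.ext e3
  have H2 : ∀ (g : M) (u : V), ∃ p : Multiplicative (VQ B), ∀ y : M, y • u = u →
      Multiplicative.ofAdd (bet B (g * y * g⁻¹)) = p * Multiplicative.ofAdd (bet B y) * p⁻¹ := by
    intro g u
    refine ⟨1, fun y hy => ?_⟩
    show Multiplicative.ofAdd (bet B (g * y * g⁻¹)) = 1 * Multiplicative.ofAdd (bet B y) * 1⁻¹
    rw [one_mul, inv_one, mul_one]
    obtain ⟨k, hk, hky⟩ := hBp u y hy
    obtain ⟨l, hl, hly⟩ := ex_pow (hcen g u) (show y ∈ stabilizer M u from hy)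
    rw [Subgroup.mem_centralizer_singleton_iff] at hly
    have e1 : y ^ (l * k) ∈ B := by rw [mul_comm, pow_mul]; exact pow_mem hky _
    have e2 : (g * y * g⁻¹) ^ (l * k) = y ^ (l * k) := by
      rw [conj_pow, pow_mul]
      have h1 : Commute g (y ^ l) := hly.symm
      have h2 : Commute g ((y ^ l) ^ k) := h1.pow_right k
      rw [h2.eq, mul_inv_cancel_right]
    have e3 : (g * y * g⁻¹) ^ (l * k) ∈ B := by rw [e2]; exact e1
    have hpos : 0 < l * k := by positivity
    rw [bet_eq B _ _ hpos e3, bet_eq B _ _ hpos e1]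
    congr 3
    exact Subtype.ext e2
  have H3 : ∀ (u w : V), T.Adj u w → ∃ p : Multiplicative (VQ B), ∀ y : M, y • u = u → y • w = w →
      Multiplicative.ofAdd (bet B y) = p * Multiplicative.ofAdd (bet B y) * p⁻¹ :=
    fun u w _ => ⟨1, fun y _ _ => by simp⟩
  obtain ⟨Ψ, hΨ⟩ := patch (P := Multiplicative (VQ B)) T hT hadj hinv
    (fun _ y => Multiplicative.ofAdd (bet B y)) (fun u y z => H1 u y z) H2 H3
  · obtain ⟨p, hp⟩ := hΨ v
    have h1 := hp x hxv
    rw [mul_comm p, mul_assoc, mul_inv_cancel, mul_one] at h1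
    have h2 : Ψ x = 1 := comm_le_ker Ψ (fun a b => mul_comm a b) hx
    rw [h2] at h1
    have h3 : bet B x = 0 := by
      have h4 := congrArg Multiplicative.toAdd h1
      exact h4.symm
    have hxB : x ∈ B := by rw [hB]; exact hxv
    have hxB' : x ^ 1 ∈ B := by rw [pow_one]; exact hxB
    rw [bet_eq B x 1 one_pos hxB'] at h3
    have hfc : IsFC B := by rw [hB]; exact isFC_stab hcen v
    have h5 : lam (⟨x ^ 1, hxB'⟩ : B) = 0 := by simpa using h3
    have h6 := fin_of_lam hfc _ h5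
    have h7 := Subgroup.subtype B |>.isOfFinOrder h6
    simpa using h7

end

end Pool.Agent.T2H35.FJT
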