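import Pool.Agent.T2H35.FJT.Patch
import Pool.Agent.R684.FP.Free
import Pool.Agent.H40R2.Zd.Serre

/-!
# Kernels acting on trees with finite stabilizers of bounded order
-/

set_option autoImplicit false

namespace Pool.Agent.T2H35.FJT

open MulAction
open Pool.Agent.Y110.FJ
open Pool.Agent.Y462.SS (Closed)
open Pool.Agent.R684.FP (FbC free_cyc)

section free

variable {H X : Type} [Group H]

/-- free actions -/
def IsFr (f : H →* Equiv.Perm X) : Prop := ∀ h x, f h x = x → h = 1

theorem free_dec (f : H →* Equiv.Perm X) (hf : IsFr f) :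
    ∃ (Q : Type) (Φ : Q × H ≃ X), ∀ (h : H) (q : Q) (k : H), Φ (q, h * k) = f h (Φ (q, k)) := by
  let S : Setoid X :=
    { r := fun x y => ∃ h, f h x = y
      iseqv := ⟨fun x => ⟨1, by simp⟩, fun {x y} ⟨h, hh⟩ => ⟨h⁻¹, by rw [← hh]; simp⟩,
        fun {x y z} ⟨h, hh⟩ ⟨k, hk⟩ => ⟨k * h, by rw [map_mul, Equiv.Perm.mul_apply, hh, hk]⟩⟩ }
  let Φ : Quotient S × H → X := fun p => f p.2 p.1.out
  have hq : ∀ (q : Quotient S) (h : H), Quotient.mk S (f h q.out) = q := by
    intro q h
    conv_rhs => rw [← Quotient.out_eq q]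
    exact Quotient.sound ⟨h⁻¹, by simp⟩
  have hinj : Function.Injective Φ := by
    rintro ⟨q, h⟩ ⟨q', h'⟩ hh
    have h1 : f h q.out = f h' q'.out := hh
    have h2 : q = q' := by rw [← hq q h, h1, hq]
    subst h2
    have h3 : f (h'⁻¹ * h) q.out = q.out := by
      rw [map_mul, Equiv.Perm.mul_apply, h1, ← Equiv.Perm.mul_apply, ← map_mul]
      simp
    have h4 := hf _ _ h3
    have h5 : h = h' := by rw [inv_mul_eq_one] at h4; exact h4.symm
    rw [h5]
  have hsur : Function.Surjective Φ := by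
    intro x
    have h0 : S.r (Quotient.mk S x).out x := Quotient.exact (Quotient.out_eq (Quotient.mk S x))
    obtain ⟨h, hh⟩ : ∃ h, f h (Quotient.mk S x).out = x := h0
    exact ⟨(Quotient.mk S x, h), hh⟩
  refine ⟨Quotient S, Equiv.ofBijective Φ ⟨hinj, hsur⟩, fun h q k => ?_⟩
  show f (h * k) q.out = f h (f k q.out)
  rw [map_mul, Equiv.Perm.mul_apply]

/-- free actions on the same finite set are conjugate -/
theorem free_conj [Finite H] [Finite X] (f g : H →* Equiv.Perm X) (hf : IsFr f) (hg : IsFr g) :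
    ∃ p : Equiv.Perm X, ∀ h, f h = p * g h * p⁻¹ := by
  obtain ⟨Q, Φ, hΦ⟩ := free_dec f hf
  obtain ⟨R, Θ, hΘ⟩ := free_dec g hg
  have h1 : Nat.card Q * Nat.card H = Nat.card R * Nat.card H := by
    rw [← Nat.card_prod, ← Nat.card_prod, Nat.card_congr Φ, Nat.card_congr Θ]
  have h2 : Nat.card Q = Nat.card R := Nat.eq_of_mul_eq_mul_right Nat.card_pos h1
  have hQ : Finite Q := Finite.of_injective (fun q => Φ (q, 1)) fun a b h => by
    have := Φ.injective h
    exact (Prod.mk.inj this).1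
  have hR : Finite R := Finite.of_injective (fun q => Θ (q, 1)) fun a b h => by
    have := Θ.injective h
    exact (Prod.mk.inj this).1
  let e : R ≃ Q := (Finite.equivFinOfCardEq h2.symm).trans (Finite.equivFin Q).symm
  refine ⟨(Θ.symm.trans (Equiv.prodCongr e (Equiv.refl H))).trans Φ, fun h => ?_⟩
  rw [eq_mul_inv_iff_mul_eq]
  ext x
  obtain ⟨⟨q, k⟩, rfl⟩ := Θ.surjective x
  rw [Equiv.Perm.mul_apply, Equiv.Perm.mul_apply, ← hΘ]
  simp only [Equiv.trans_apply, Equiv.symm_apply_apply, Equiv.prodCongr_apply, Prod.map_apply,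
    Equiv.refl_apply]
  rw [hΦ]

/-- free actions exist -/
theorem exists_free [Finite H] (M : ℕ) (hM : Nat.card H ∣ M) : ∃ f : H →* Equiv.Perm (Fin M), IsFr f := by
  obtain ⟨k, hk⟩ := hM
  have h1 : Nat.card (Fin k × H) = M := by rw [Nat.card_prod, Nat.card_fin, hk, mul_comm]
  let e : Fin k × H ≃ Fin M := Finite.equivFinOfCardEq h1
  refine ⟨MonoidHom.mk' (fun h => (e.symm.trans (Equiv.prodCongr (Equiv.refl _)
    (Equiv.mulLeft h))).trans e) ?_, ?_⟩
  · intro a b
    refine Equiv.ext fun x => ?_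
    show e (Prod.map id (fun y => a * b * y) (e.symm x)) =
      e (Prod.map id (fun y => a * y) (e.symm (e (Prod.map id (fun y => b * y) (e.symm x)))))
    rw [e.symm_apply_apply]
    congr 1
    ext
    · rfl
    · exact mul_assoc _ _ _
  · intro h x hx
    have h2 : e (Prod.map id (fun y => h * y) (e.symm x)) = x := hx
    have h3 := e.injective (h2.trans (e.apply_symm_apply x).symm)
    have h4 : h * (e.symm x).2 = (e.symm x).2 := congrArg Prod.snd h3
    exact mul_eq_right.1 h4

end free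

variable {C : ∀ (G : Type) [Group G], Prop}

/-- a homomorphism to a finite symmetric group which is injective on all stabilizers -/
theorem exists_perm {K V : Type} [Group K] [MulAction K V] (T : SimpleGraph V) (hT : T.IsTree)
    (hadj : ∀ (γ : K) (u v : V), T.Adj u v → T.Adj (γ • u) (γ • v))
    (hinv : ∀ γ : K, ∀ u v : V, T.Adj u v → ¬ (γ • u = v ∧ γ • v = u)) (m : ℕ)
    (hfin : ∀ v : V, Finite (stabilizer K v) ∧ Nat.card (stabilizer K v) ≤ m) :
    ∃ Ψ : K →* Equiv.Perm (Fin m.factorial), ∀ (v : V) (x : K), x • v = v → Ψ x = 1 → x = 1 := by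
  classical
  have h1 : ∀ v : V, ∃ f : stabilizer K v →* Equiv.Perm (Fin m.factorial), IsFr f := by
    intro v
    have := (hfin v).1
    exact exists_free _ (Nat.dvd_factorial Nat.card_pos (hfin v).2)
  choose f hf using h1
  let ρ : V → K → Equiv.Perm (Fin m.factorial) := fun v x =>
    if h : x • v = v then f v ⟨x, h⟩ else 1
  have hρ : ∀ (v : V) (x : K) (h : x • v = v), ρ v x = f v ⟨x, h⟩ := fun v x h => dif_pos h
  have H1 : ∀ v x y, x • v = v → y • v = v → ρ v (x * y) = ρ v x * ρ v y := by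
    intro v x y hx hy
    have hxy : (x * y) • v = v := by rw [mul_smul, hy, hx]
    rw [hρ v x hx, hρ v y hy, hρ v _ hxy, ← map_mul]
    rfl
  have H2 : ∀ (g : K) (v : V), ∃ p : Equiv.Perm (Fin m.factorial), ∀ x : K, x • v = v →
      ρ (g • v) (g * x * g⁻¹) = p * ρ v x * p⁻¹ := by
    intro g v
    have := (hfin v).1
    have hst : ∀ x : stabilizer K v, (g * (x : K) * g⁻¹) • (g • v) = g • v := by
      intro x
      rw [← mul_smul, inv_mul_cancel_right, mul_smul]
      exact congrArg (g • ·) x.2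
    let f' : stabilizer K v →* Equiv.Perm (Fin m.factorial) :=
      MonoidHom.mk' (fun x => f (g • v) ⟨g * (x : K) * g⁻¹, hst x⟩) (by
        intro x y
        rw [← map_mul]
        congr 1
        apply Subtype.ext
        show g * ((x : K) * y) * g⁻¹ = (g * x * g⁻¹) * (g * y * g⁻¹)
        group)
    have hf' : IsFr f' := by
      intro x z hz
      have h2 : (⟨g * (x : K) * g⁻¹, hst x⟩ : stabilizer K (g • v)) = 1 := hf (g • v) _ z hz
      have h3 : g * (x : K) * g⁻¹ = 1 := congrArg Subtype.val h2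
      apply Subtype.ext
      have h4 : (x : K) = g⁻¹ * (g * x * g⁻¹) * g := by group
      rw [h4, h3]
      simp
    obtain ⟨p, hp⟩ := free_conj f' (f v) hf' (hf v)
    refine ⟨p, fun x hx => ?_⟩
    rw [hρ v x hx, hρ (g • v) _ (hst ⟨x, hx⟩)]
    exact hp ⟨x, hx⟩
  have H3 : ∀ (u v : V), T.Adj u v → ∃ p : Equiv.Perm (Fin m.factorial), ∀ x : K, x • u = u →
      x • v = v → ρ u x = p * ρ v x * p⁻¹ := by
    intro u v _
    have := (hfin u).1
    have hfi : Finite ↥(stabilizer K u ⊓ stabilizer K v) :=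
      Finite.of_injective (Subgroup.inclusion inf_le_left) (Subgroup.inclusion_injective _)
    have e1 : IsFr ((f u).comp
        (Subgroup.inclusion (inf_le_left : stabilizer K u ⊓ stabilizer K v ≤ _))) := by
      intro x z hz
      have := hf u _ z hz
      exact Subtype.ext (congrArg (fun y : stabilizer K u => (y : K)) this)
    have e2 : IsFr ((f v).comp
        (Subgroup.inclusion (inf_le_right : stabilizer K u ⊓ stabilizer K v ≤ _))) := by
      intro x z hz
      have := hf v _ z hz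
      exact Subtype.ext (congrArg (fun y : stabilizer K v => (y : K)) this)
    obtain ⟨p, hp⟩ := free_conj _ _ e1 e2
    refine ⟨p, fun x hxu hxv => ?_⟩
    rw [hρ u x hxu, hρ v x hxv]
    exact hp ⟨x, hxu, hxv⟩
  obtain ⟨Ψ, hΨ⟩ := patch T hT hadj hinv ρ H1 H2 H3
  refine ⟨Ψ, fun v x hx h1 => ?_⟩
  obtain ⟨p, hp⟩ := hΨ v
  have h2 := hp x hx
  rw [h1, hρ v x hx] at h2
  have h3 : f v ⟨x, hx⟩ = 1 := by
    have : f v ⟨x, hx⟩ = p⁻¹ * (p * f v ⟨x, hx⟩ * p⁻¹) * p := by group
    rw [this, ← h2]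
    group
  have h4 := hf v ⟨x, hx⟩ ⟨0, Nat.factorial_pos m⟩ (by rw [h3]; rfl)
  exact congrArg Subtype.val h4

/-- the intersection of the kernels of all homomorphisms to a group -/
def Dk (K X : Type) [Group K] [Group X] : Subgroup K := ⨅ f : K →* X, f.ker

theorem mem_Dk {K X : Type} [Group K] [Group X] {x : K} : x ∈ Dk K X ↔ ∀ f : K →* X, f x = 1 := by
  unfold Dk
  rw [Subgroup.mem_iInf]
  rfl

theorem Dk_normal {G X : Type} [Group G] [Group X] (K : Subgroup G) [hK : K.Normal] :
    ((Dk K X).map K.subtype).Normal := by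
  refine ⟨?_⟩
  rintro _ ⟨x, hx, rfl⟩ g
  refine ⟨MulAut.conjNormal g x, ?_, by rw [Subgroup.coe_subtype, MulAut.conjNormal_apply]⟩
  have hx' : x ∈ Dk K X := hx
  show MulAut.conjNormal g x ∈ Dk K X
  rw [mem_Dk] at hx' ⊢
  intro f
  exact hx' (f.comp (MulAut.conjNormal g : MulAut K).toMonoidHom)

theorem Dk_index {G X : Type} [Group G] [Group X] [Finite X] (K : Subgroup G) (E : Set G)
    (hE : E.Finite) (hEK : E ⊆ K) : ((Dk K X).map K.subtype).relIndex (Subgroup.closure E) ≠ 0 := by
  obtain ⟨L, hL⟩ : ∃ L, L = Subgroup.closure E := ⟨_, rfl⟩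
  rw [← hL]
  have hLK : L ≤ K := by rw [hL, Subgroup.closure_le]; exact hEK
  have hEL : ∀ e : E, (e : G) ∈ L := fun e => by rw [hL]; exact Subgroup.subset_closure e.2
  have : Finite E := hE
  have hfin : Finite (L →* X) := by
    refine Finite.of_injective (fun f : L →* X => fun e : E => f ⟨e, hEL e⟩) ?_
    intro f g hfg
    have h1 : Subgroup.closure {x : L | (x : G) ∈ E} = ⊤ := by
      rw [eq_top_iff]
      intro x _
      have hx : (x : G) ∈ Subgroup.closure E := hL ▸ x.2
      have h2 : ∀ y (hy : y ∈ Subgroup.closure E), ∀ hyL : y ∈ L,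
          (⟨y, hyL⟩ : L) ∈ Subgroup.closure {x : L | (x : G) ∈ E} := by
        intro y hy
        induction hy using Subgroup.closure_induction with
        | mem y hy => intro hyL; exact Subgroup.subset_closure hy
        | one => intro _; exact one_mem _
        | mul y z hy hz ihy ihz =>
          intro _
          exact mul_mem (ihy (hL ▸ hy)) (ihz (hL ▸ hz))
        | inv y hy ihy =>
          intro _
          exact inv_mem (ihy (hL ▸ hy))
      exact h2 _ hx x.2
    refine MonoidHom.eq_of_eqOn_dense h1 ?_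
    intro x hx
    exact congrFun hfg ⟨x, hx⟩
  have h1 : (Dk L X).FiniteIndex := by
    unfold Dk
    refine Subgroup.finiteIndex_iInf fun f => ?_
    infer_instance
  have h2 : Dk L X ≤ ((Dk K X).map K.subtype).subgroupOf L := by
    intro x hx
    rw [Subgroup.mem_subgroupOf]
    refine ⟨⟨x, hLK x.2⟩, ?_, rfl⟩
    show (⟨x, hLK x.2⟩ : K) ∈ Dk K X
    rw [mem_Dk] at hx ⊢
    intro f
    exact hx (f.comp (Subgroup.inclusion hLK))
  have h3 : (((Dk K X).map K.subtype).subgroupOf L).FiniteIndex := Subgroup.finiteIndex_of_le h2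
  exact h3.index_ne_zero

/-- **kernels acting on trees with finite stabilizers of bounded order** -/
theorem bdd_cyc (hC : ClosedE C) (hF : FbC C) {G V : Type} [Group G] (K : Subgroup G) [hK : K.Normal]
    [MulAction K V] (T : SimpleGraph V) (hT : T.IsTree)
    (hadj : ∀ (γ : K) (u v : V), T.Adj u v → T.Adj (γ • u) (γ • v))
    (hinv : ∀ γ : K, ∀ u v : V, T.Adj u v → ¬ (γ • u = v ∧ γ • v = u)) (m : ℕ)
    (hfin : ∀ v : V, Finite (stabilizer K v) ∧ Nat.card (stabilizer K v) ≤ m) (g : G) :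
    C ↥(K ⊔ Subgroup.zpowers g) := by
  obtain ⟨Ψ, hΨ⟩ := exists_perm T hT hadj hinv m hfin
  obtain ⟨D, hD⟩ : ∃ D : Subgroup G, D = (Dk K (Equiv.Perm (Fin m.factorial))).map K.subtype :=
    ⟨_, rfl⟩
  have hDn : D.Normal := by rw [hD]; exact Dk_normal K
  have hDK : D ≤ K := by
    rw [hD]
    rintro _ ⟨x, _, rfl⟩
    exact x.2
  have hfree : IsFreeGroup D := by
    let _ : MulAction D V := MulAction.compHom V (Subgroup.inclusion hDK)
    have hsm : ∀ (x : D) (v : V), x • v = (Subgroup.inclusion hDK x) • v := fun x v => rfl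
    refine Pool.Agent.H40R2.Zd.free_of_tree (N := D) T hT ?_ ?_ ?_
    · intro γ u v h
      exact hadj _ u v h
    · intro γ v h
      have h1 := hΨ v (Subgroup.inclusion hDK γ) h (by
        obtain ⟨y, hy, hyγ⟩ : (γ : G) ∈ (Dk K (Equiv.Perm (Fin m.factorial))).map K.subtype :=
          hD ▸ γ.2
        have h2 : Subgroup.inclusion hDK γ = y := Subtype.ext hyγ.symm
        rw [h2]
        exact mem_Dk.1 hy Ψ)
      exact Subtype.ext (congrArg (Subtype.val : K → G) h1)
    · intro γ u v h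
      exact hinv _ u v h
  refine Pool.Agent.R941.FJ.step hC (M := D) (fun g => free_cyc hC hF D g) hDK (fun g => ?_) g
  refine Pool.Agent.R941.FJ.factor_lf hC D K (fun E hE hEK => ?_) g
  rw [hD]
  exact Dk_index K E hE hEK

end Pool.Agent.T2H35.FJT
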