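import Pool.Agent.T2H35.FJT.Abel
import Pool.Agent.T2H35.FJT.Bdd

/-!
# Kernels acting on trees with commensurable stabilizers
-/

set_option autoImplicit false

namespace Pool.Agent.T2H35.FJT

open MulAction
open Pool.Agent.Y110.FJ
open Pool.Agent.Y462.SS (Closed)
open Pool.Agent.R684.FP (FbC free_cyc)

variable {C : ∀ (G : Type) [Group G], Prop}

theorem rel_mono {G : Type} [Group G] {H K L : Subgroup G} (h : K ≤ L) (hL : H.relIndex L ≠ 0) :
    H.relIndex K ≠ 0 := fun h0 => hL (Subgroup.relIndex_eq_zero_of_le_right h h0)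

/-- all metabelian groups -/
def Met (C : ∀ (G : Type) [Group G], Prop) : Prop :=
  ∀ (S : Type) [Group S], (∀ a ∈ commutator S, ∀ b ∈ commutator S, a * b = b * a) → C S

theorem quot_inf (hC : Closed C) {G : Type} [Group G] (N Z : Subgroup G) [N.Normal] [Z.Normal]
    (hN : C (G ⧸ N)) (hZ : C (G ⧸ Z)) : C (G ⧸ (N ⊓ Z)) := by
  refine hC.of_injective _ ((G ⧸ N) × (G ⧸ Z)) (QuotientGroup.lift (N ⊓ Z)
    (MonoidHom.prod (QuotientGroup.mk' N) (QuotientGroup.mk' Z)) fun x hx => ?_) ?_ (hC.prod _ _ hN hZ)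
  · exact Prod.ext ((QuotientGroup.eq_one_iff x).2 hx.1) ((QuotientGroup.eq_one_iff x).2 hx.2)
  · rw [injective_iff_map_eq_one]
    intro a ha
    obtain ⟨x, rfl⟩ := QuotientGroup.mk_surjective a
    have h1 : ((QuotientGroup.mk x : G ⧸ N), (QuotientGroup.mk x : G ⧸ Z)) = 1 := ha
    have h2 := congrArg Prod.fst h1
    have h3 := congrArg Prod.snd h1
    exact (QuotientGroup.eq_one_iff x).2 ⟨(QuotientGroup.eq_one_iff x).1 h2,
      (QuotientGroup.eq_one_iff x).1 h3⟩

theorem main1 (hC : ClosedE C) (hmet : Met C) (hF : FbC C) {G V : Type} [Group G]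
    (N Z : Subgroup G) [N.Normal] [Z.Normal] (hQ : C (G ⧸ N)) (hZ : C (G ⧸ Z)) [MulAction N V]
    (T : SimpleGraph V) (hT : T.IsTree)
    (hadj : ∀ (γ : N) (u v : V), T.Adj u v → T.Adj (γ • u) (γ • v))
    (hinv : ∀ γ : N, ∀ u v : V, T.Adj u v → ¬ (γ • u = v ∧ γ • v = u))
    (hcom : ∀ u v : V, (stabilizer N u).relIndex (stabilizer N v) ≠ 0)
    (hcen : ∀ z ∈ Z, ∀ v : V,
      (Subgroup.centralizer {z}).relIndex ((stabilizer N v).map N.subtype) ≠ 0)
    (m : ℕ) (hm : ∀ (v : V) (F : Subgroup N), F ≤ stabilizer N v → Finite F → Nat.card F ≤ m) :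
    C G := by
  obtain ⟨M, hM⟩ : ∃ M : Subgroup G, M = N ⊓ Z := ⟨_, rfl⟩
  have hMn : M.Normal := by rw [hM]; infer_instance
  have hMN : M ≤ N := by rw [hM]; exact inf_le_left
  have hMZ : M ≤ Z := by rw [hM]; exact inf_le_right
  have hQM : C (G ⧸ M) := by
    subst hM
    exact quot_inf hC.base N Z hQ hZ
  let _ : MulAction M V := MulAction.compHom V (Subgroup.inclusion hMN)
  have hsm : ∀ (x : M) (v : V), x • v = (Subgroup.inclusion hMN x) • v := fun x v => rfl
  have hadjM : ∀ (γ : M) (u v : V), T.Adj u v → T.Adj (γ • u) (γ • v) :=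
    fun γ u v h => hadj _ u v h
  have hinvM : ∀ γ : M, ∀ u v : V, T.Adj u v → ¬ (γ • u = v ∧ γ • v = u) :=
    fun γ u v h => hinv _ u v h
  have hst : ∀ v : V, stabilizer M v = (stabilizer N v).comap (Subgroup.inclusion hMN) :=
    fun v => rfl
  have hcomM : ∀ u v : V, (stabilizer M u).relIndex (stabilizer M v) ≠ 0 := by
    intro u v
    rw [hst u, Subgroup.relIndex_comap]
    refine rel_mono ?_ (hcom u v)
    rw [hst v]
    exact Subgroup.map_comap_le _ _
  have hcenM : ∀ (g : M) (v : V), (Subgroup.centralizer {g}).relIndex (stabilizer M v) ≠ 0 := by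
    intro g v
    have h1 : Subgroup.centralizer {g} = (Subgroup.centralizer {(g : G)}).comap M.subtype := by
      ext x
      rw [Subgroup.mem_comap, Subgroup.mem_centralizer_singleton_iff,
        Subgroup.mem_centralizer_singleton_iff, ← Subtype.val_inj]
      rfl
    rw [h1, Subgroup.relIndex_comap]
    refine rel_mono ?_ (hcen g (hMZ g.2) v)
    rintro _ ⟨x, hx, rfl⟩
    exact ⟨Subgroup.inclusion hMN x, hx, rfl⟩
  -- the commutator subgroup
  obtain ⟨K, hK⟩ : ∃ K : Subgroup G, K = ⁅M, M⁆ := ⟨_, rfl⟩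
  have hKn : K.Normal := by rw [hK]; infer_instance
  have hKM : K ≤ M := by rw [hK]; exact Subgroup.commutator_le_left M M
  have hKc : ∀ (x : M), (x : G) ∈ K → x ∈ commutator M := by
    intro x hx
    have h2 : K = (commutator M).map M.subtype := by
      rw [hK, commutator_def, Subgroup.map_commutator, ← MonoidHom.range_eq_map,
        Subgroup.range_subtype]
    rw [h2] at hx
    obtain ⟨y, hy, hyx⟩ := hx
    have h3 : y = x := Subtype.ext hyx
    rw [← h3]
    exact hy
  have hKcyc : ∀ g : G, C ↥(K ⊔ Subgroup.zpowers g) := by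
    intro g
    let _ : MulAction K V := MulAction.compHom V (Subgroup.inclusion (hKM.trans hMN))
    refine bdd_cyc hC hF K T hT (fun γ u v h => hadj _ u v h) (fun γ u v h => hinv _ u v h) m ?_ g
    intro v
    obtain ⟨K', hK'⟩ : ∃ K' : Subgroup (stabilizer M v), K' =
        (K.comap M.subtype).comap (stabilizer M v).subtype := ⟨_, rfl⟩
    have h1 := fin_of_bdd (isFC_stab hcenM v) K' (fun x hx => ?_) m (fun F hF' hfin => ?_)
    · obtain ⟨h1, h2⟩ := h1
      let e : stabilizer K v → K' := fun x => ⟨⟨Subgroup.inclusion hKM x, x.2⟩, by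
        rw [hK']
        exact (x : K).2⟩
      have he : Function.Injective e := by
        intro x y hxy
        have h3 := congrArg (fun z : K' => (((z : stabilizer M v) : M) : G)) hxy
        exact Subtype.ext (Subtype.ext h3)
      exact ⟨Finite.of_injective e he, (Nat.card_le_card_of_injective e he).trans h2⟩
    · have h2 : ((x : M) : G) ∈ K := by rw [hK'] at hx; exact hx
      have h3 := elliptic_comm T hT hadjM hinvM hcomM hcenM v (x : M) x.2 (hKc _ h2)
      rw [isOfFinOrder_iff_pow_eq_one] at h3 ⊢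
      obtain ⟨n, hn, h4⟩ := h3
      exact ⟨n, hn, Subtype.ext h4⟩
    · let j : stabilizer M v →* N := (Subgroup.inclusion hMN).comp (stabilizer M v).subtype
      have hj : Function.Injective j :=
        (Subgroup.inclusion_injective hMN).comp (stabilizer M v).subtype_injective
      have h2 := hm v (F.map j) (by
        rintro _ ⟨x, _, rfl⟩
        exact x.2) (Finite.of_equiv F (F.equivMapOfInjective j hj).toEquiv)
      rwa [← Nat.card_congr (F.equivMapOfInjective j hj).toEquiv] at h2
  have hMcyc : ∀ g : G, C ↥(M ⊔ Subgroup.zpowers g) := by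
    intro g
    refine Pool.Agent.R941.FJ.step hC (M := K) hKcyc hKM (fun g => ?_) g
    refine Pool.Agent.R941.FJ.factor_ab hC hmet K M (fun a ha b hb => ?_) g
    rw [hK]
    exact Subgroup.commutator_mem_commutator ha hb
  refine Pool.Agent.Y529.FJ.t_ext C hC G M ?_ hQM fun g _ => hMcyc g
  exact Pool.Agent.R941.FJ.C_le hC.base le_sup_left (hMcyc 1)

end Pool.Agent.T2H35.FJT
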