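import Mathlib

/-!
# Patching homomorphisms along a tree

Let `N` act on a tree without inversions. Homomorphisms from the vertex stabilizers to a group `P`
which are compatible up to conjugation in `P` come from a homomorphism `N → P`.
-/

set_option autoImplicit false

namespace Pool.Agent.T2H35.FJT

open SimpleGraph

section walk

variable {V P : Type} [Group P] {T : SimpleGraph V}

/-- product along a walk -/
def W (a : V → V → P) : ∀ {u v : V}, T.Walk u v → P
  | _, _, .nil => 1
  | u, _, .cons (v := v) _ p => a u v * W a p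

theorem W_nil (a : V → V → P) {u : V} : W a (Walk.nil : T.Walk u u) = 1 := rfl

theorem W_cons (a : V → V → P) {u v w : V} (h : T.Adj u v) (p : T.Walk v w) :
    W a (Walk.cons h p) = a u v * W a p := rfl

theorem W_append (a : V → V → P) {u v w : V} (p : T.Walk u v) (q : T.Walk v w) :
    W a (p.append q) = W a p * W a q := by
  induction p with
  | nil => simp [W_nil]
  | cons h p ih => rw [Walk.cons_append, W_cons, W_cons, ih, mul_assoc]

theorem W_eq_path (hT : T.IsTree) (a : V → V → P)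
    (ha : ∀ u v, T.Adj u v → a u v * a v u = 1) {u v : V} (p : T.Walk u v) :
    ∀ q : T.Walk u v, q.IsPath → W a p = W a q := by
  classical
  have huniq : ∀ {a b : V} (p q : T.Walk a b), p.IsPath → q.IsPath → p = q := by
    intro a b p q hp hq
    have := (hT.isAcyclic.subsingleton_path a b).elim ⟨p, hp⟩ ⟨q, hq⟩
    exact congrArg Subtype.val this
  induction p with
  | nil =>
    intro q hq
    rw [huniq q Walk.nil hq Walk.IsPath.nil]
  | @cons u v w h p ih =>
    intro q hq
    set q' : T.Walk v w := p.bypass with hq'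
    have hq'p : q'.IsPath := p.bypass_isPath
    rw [W_cons, ih q' hq'p]
    by_cases hu : u ∈ q'.support
    · have h1 := q'.take_spec hu
      have h2 : q'.takeUntil u hu = Walk.cons h.symm Walk.nil := by
        apply huniq _ _ (hq'p.takeUntil hu)
        simp [h.ne']
      have h3 : q'.dropUntil u hu = q := huniq _ _ (hq'p.dropUntil hu) hq
      rw [← h1, W_append, h2, h3, W_cons, W_nil, mul_one, ← mul_assoc, ha u v h, one_mul]
    · have h1 : Walk.cons h q' = q := by
        apply huniq _ _ _ hq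
        rw [Walk.cons_isPath_iff]
        exact ⟨hq'p, hu⟩
      rw [← h1, W_cons]

theorem W_eq (hT : T.IsTree) (a : V → V → P) (ha : ∀ u v, T.Adj u v → a u v * a v u = 1)
    {u v : V} (p q : T.Walk u v) : W a p = W a q := by
  classical
  rw [W_eq_path hT a ha p q.bypass q.bypass_isPath, W_eq_path hT a ha q q.bypass q.bypass_isPath]

/-- the transport between two vertices -/
theorem exists_transport (hT : T.IsTree) (a : V → V → P)
    (ha : ∀ u v, T.Adj u v → a u v * a v u = 1) :
    ∃ F : V → V → P, (∀ u, F u u = 1) ∧ (∀ u v w, F u w = F u v * F v w) ∧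
      (∀ u v, T.Adj u v → F u v = a u v) ∧
      ∀ (u v : V) (p : T.Walk u v), F u v = W a p := by
  classical
  have hw : ∀ u v : V, Nonempty (T.Walk u v) := fun u v => hT.connected.preconnected u v
  let w0 : ∀ u v : V, T.Walk u v := fun u v => Classical.choice (hw u v)
  have hF : ∀ (u v : V) (p : T.Walk u v), W a (w0 u v) = W a p := fun u v p => W_eq hT a ha _ _
  refine ⟨fun u v => W a (w0 u v), fun u => ?_, fun u v w => ?_, fun u v h => ?_, hF⟩
  · exact (hF u u Walk.nil).trans (W_nil a)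
  · show W a (w0 u w) = W a (w0 u v) * W a (w0 v w)
    rw [hF u w ((w0 u v).append (w0 v w)), W_append]
  · show W a (w0 u v) = a u v
    rw [hF u v (Walk.cons h Walk.nil), W_cons, W_nil, mul_one]

end walk

section patch

variable {N V P : Type} [Group N] [MulAction N V] [Group P]

variable (N V) in
/-- ordered pairs modulo the group -/
def pSetoid : Setoid (V × V) where
  r := fun p q => ∃ γ : N, γ • p.1 = q.1 ∧ γ • p.2 = q.2
  iseqv := by
    refine ⟨fun p => ⟨1, by simp, by simp⟩, ?_, ?_⟩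
    · rintro p q ⟨γ, h2, h3⟩
      exact ⟨γ⁻¹, by rw [← h2]; simp, by rw [← h3]; simp⟩
    · rintro p q r ⟨γ, h2, h3⟩ ⟨δ, h5, h6⟩
      exact ⟨δ * γ, by rw [mul_smul, h2, h5], by rw [mul_smul, h3, h6]⟩

/-- **patching** -/
theorem patch (T : SimpleGraph V) (hT : T.IsTree)
    (hadj : ∀ (γ : N) (u v : V), T.Adj u v → T.Adj (γ • u) (γ • v))
    (hinv : ∀ γ : N, ∀ u v : V, T.Adj u v → ¬ (γ • u = v ∧ γ • v = u))
    (ρ : V → N → P)
    (hmul : ∀ v x y, x • v = v → y • v = v → ρ v (x * y) = ρ v x * ρ v y)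
    (hconj : ∀ (g : N) (v : V), ∃ p : P, ∀ x : N, x • v = v →
      ρ (g • v) (g * x * g⁻¹) = p * ρ v x * p⁻¹)
    (hedge : ∀ u v, T.Adj u v → ∃ p : P, ∀ x : N, x • u = u → x • v = v →
      ρ u x = p * ρ v x * p⁻¹) :
    ∃ Ψ : N →* P, ∀ v, ∃ p : P, ∀ x : N, x • v = v → Ψ x = p * ρ v x * p⁻¹ := by
  classical
  -- orbit representatives
  let r : V → V := fun v => (Quotient.mk (MulAction.orbitRel N V) v).out
  have hr : ∀ v, ∃ s : N, s • r v = v := by
    intro v
    have h1 : (MulAction.orbitRel N V).r (r v) v :=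
      Quotient.exact (Quotient.out_eq (Quotient.mk (MulAction.orbitRel N V) v))
    obtain ⟨s, hs⟩ : ∃ s : N, s • v = r v := h1
    exact ⟨s⁻¹, by rw [← hs, inv_smul_smul]⟩
  choose s hs using hr
  have hrg : ∀ (g : N) (v : V), r (g • v) = r v := by
    intro g v
    have h1 : (Quotient.mk (MulAction.orbitRel N V) (g • v)) =
        Quotient.mk (MulAction.orbitRel N V) v := Quotient.sound ⟨g, rfl⟩
    show (Quotient.mk (MulAction.orbitRel N V) (g • v)).out = _
    rw [h1]
  have hs' : ∀ v, (s v)⁻¹ • v = r v := fun v => by rw [inv_smul_eq_iff, hs]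
  -- the vertex cocycle
  let c : N → V → P := fun g v => ρ (r v) ((s (g • v))⁻¹ * g * s v)
  have hst : ∀ (g : N) (v : V), ((s (g • v))⁻¹ * g * s v) • r v = r v := by
    intro g v
    rw [mul_smul, hs, mul_smul, hs', hrg]
  have hc : ∀ (g h : N) (v : V), c (g * h) v = c g (h • v) * c h v := by
    intro g h v
    show ρ (r v) ((s ((g * h) • v))⁻¹ * (g * h) * s v) =
      ρ (r (h • v)) ((s (g • h • v))⁻¹ * g * s (h • v)) * ρ (r v) ((s (h • v))⁻¹ * h * s v)
    have h1 := hst g (h • v)
    rw [hrg] at h1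
    rw [hrg, ← hmul (r v) _ _ h1 (hst h v), mul_smul]
    congr 1
    group
  have hc1 : ∀ v, c 1 v = 1 := by
    intro v
    have h1 := hc 1 1 v
    rw [one_smul, one_mul] at h1
    have h2 : c 1 v * 1 = c 1 v * c 1 v := by rw [mul_one]; exact h1
    exact (mul_left_cancel h2).symm
  have hcx : ∀ v, ∃ p : P, ∀ x : N, x • v = v → c x v = p * ρ v x * p⁻¹ := by
    intro v
    obtain ⟨p, hp⟩ := hconj (s v) (r v)
    refine ⟨p⁻¹, fun x hx => ?_⟩
    show ρ (r v) ((s (x • v))⁻¹ * x * s v) = _
    rw [hx]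
    have h1 : ((s v)⁻¹ * x * s v) • r v = r v := by rw [mul_smul, hs, mul_smul, hx, hs']
    have h2 := hp _ h1
    rw [hs] at h2
    have h3 : s v * ((s v)⁻¹ * x * s v) * (s v)⁻¹ = x := by group
    rw [h3] at h2
    rw [h2]
    group
  -- edges
  have hce : ∀ u v, T.Adj u v → ∃ d : P, ∀ x : N, x • u = u → x • v = v → c x u * d = d * c x v := by
    intro u v h
    obtain ⟨p, hp⟩ := hcx u
    obtain ⟨q, hq⟩ := hcx v
    obtain ⟨e, he⟩ := hedge u v h
    refine ⟨p * e * q⁻¹, fun x hxu hxv => ?_⟩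
    rw [hp x hxu, hq x hxv, he x hxu hxv]
    group
  let m : V → V → Quotient (pSetoid N V) := fun u v => Quotient.mk (pSetoid N V) (u, v)
  have hm : ∀ (g : N) (u v : V), m (g • u) (g • v) = m u v := by
    intro g u v
    exact Quotient.sound ⟨g⁻¹, by simp, by simp⟩
  have ht : ∀ u v : V, ∃ t : N, t • (m u v).out.1 = u ∧ t • (m u v).out.2 = v := by
    intro u v
    exact Quotient.exact (Quotient.out_eq (m u v))
  choose t ht1 ht2 using ht
  have hd : ∀ q : Quotient (pSetoid N V), ∃ d : P, T.Adj q.out.1 q.out.2 →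
      ∀ x : N, x • q.out.1 = q.out.1 → x • q.out.2 = q.out.2 →
        c x q.out.1 * d = d * c x q.out.2 := by
    intro q
    by_cases h : T.Adj q.out.1 q.out.2
    · obtain ⟨d, hd⟩ := hce _ _ h
      exact ⟨d, fun _ => hd⟩
    · exact ⟨1, fun h' => absurd h' h⟩
  choose d hd using hd
  let δ : V → V → P := fun u v => c (t u v) (m u v).out.1 * d (m u v) * (c (t u v) (m u v).out.2)⁻¹
  have hout : ∀ u v, T.Adj u v → T.Adj (m u v).out.1 (m u v).out.2 := by
    intro u v h
    have h1 := hadj (t u v)⁻¹ u v h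
    rwa [inv_smul_eq_iff.2 (ht1 u v).symm, inv_smul_eq_iff.2 (ht2 u v).symm] at h1
  have hδ : ∀ (g : N) (u v : V), T.Adj u v → δ (g • u) (g • v) = c g u * δ u v * (c g v)⁻¹ := by
    intro g u v h
    obtain ⟨x, hx⟩ : ∃ x : N, x = (t (g • u) (g • v))⁻¹ * g * t u v := ⟨_, rfl⟩
    have e1 := ht1 (g • u) (g • v)
    have e2 := ht2 (g • u) (g • v)
    rw [hm] at e1 e2
    have hx1 : x • (m u v).out.1 = (m u v).out.1 := by
      rw [hx, mul_smul, ht1, mul_smul, inv_smul_eq_iff, e1]
    have hx2 : x • (m u v).out.2 = (m u v).out.2 := by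
      rw [hx, mul_smul, ht2, mul_smul, inv_smul_eq_iff, e2]
    have hgt : g * t u v = t (g • u) (g • v) * x := by rw [hx]; group
    have f1 : c g u * c (t u v) (m u v).out.1 =
        c (t (g • u) (g • v)) (m u v).out.1 * c x (m u v).out.1 := by
      have h1 := hc g (t u v) (m u v).out.1
      rw [ht1] at h1
      rw [← h1, hgt, hc, hx1]
    have f2 : c g v * c (t u v) (m u v).out.2 =
        c (t (g • u) (g • v)) (m u v).out.2 * c x (m u v).out.2 := by
      have h1 := hc g (t u v) (m u v).out.2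
      rw [ht2] at h1
      rw [← h1, hgt, hc, hx2]
    have f3 := hd (m u v) (hout u v h) x hx1 hx2
    show c (t (g • u) (g • v)) (m (g • u) (g • v)).out.1 * d (m (g • u) (g • v)) *
      (c (t (g • u) (g • v)) (m (g • u) (g • v)).out.2)⁻¹ =
      c g u * (c (t u v) (m u v).out.1 * d (m u v) * (c (t u v) (m u v).out.2)⁻¹) * (c g v)⁻¹
    rw [hm]
    calc c (t (g • u) (g • v)) (m u v).out.1 * d (m u v) *
        (c (t (g • u) (g • v)) (m u v).out.2)⁻¹
        = c (t (g • u) (g • v)) (m u v).out.1 * (c x (m u v).out.1 * d (m u v) *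
          (c x (m u v).out.2)⁻¹) * (c (t (g • u) (g • v)) (m u v).out.2)⁻¹ := by
          rw [f3]; group
      _ = (c (t (g • u) (g • v)) (m u v).out.1 * c x (m u v).out.1) * d (m u v) *
          (c (t (g • u) (g • v)) (m u v).out.2 * c x (m u v).out.2)⁻¹ := by group
      _ = _ := by rw [← f1, ← f2]; group
  -- orientation
  let _ : LinearOrder (Quotient (pSetoid N V)) := linearOrderOfSTO WellOrderingRel
  have hne : ∀ u v, T.Adj u v → m u v ≠ m v u := by
    intro u v h hc
    obtain ⟨γ, h3, h4⟩ : ∃ γ : N, γ • u = v ∧ γ • v = u := Quotient.exact hc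
    exact hinv γ u v h ⟨h3, h4⟩
  let a : V → V → P := fun u v => if m u v < m v u then δ u v else (δ v u)⁻¹
  have ha : ∀ u v, T.Adj u v → a u v * a v u = 1 := by
    intro u v h
    show (if m u v < m v u then δ u v else (δ v u)⁻¹) * (if m v u < m u v then δ v u else (δ u v)⁻¹) = 1
    rcases lt_or_gt_of_ne (hne u v h) with h1 | h1
    · rw [if_pos h1, if_neg (not_lt_of_gt h1), mul_inv_cancel]
    · rw [if_neg (not_lt_of_gt h1), if_pos h1, inv_mul_cancel]
  have hag : ∀ (g : N) (u v : V), T.Adj u v → a (g • u) (g • v) = c g u * a u v * (c g v)⁻¹ := by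
    intro g u v h
    show (if m (g • u) (g • v) < m (g • v) (g • u) then δ (g • u) (g • v)
      else (δ (g • v) (g • u))⁻¹) = c g u * (if m u v < m v u then δ u v else (δ v u)⁻¹) * (c g v)⁻¹
    rw [hm, hm]
    split_ifs
    · exact hδ g u v h
    · rw [hδ g v u h.symm]
      group
  obtain ⟨F, hF1, hF2, hF3, hF4⟩ := exists_transport hT a ha
  have hFg : ∀ (g : N) (u v : V), F (g • u) (g • v) = c g u * F u v * (c g v)⁻¹ := by
    intro g u v
    obtain ⟨p⟩ : Nonempty (T.Walk u v) := hT.connected.preconnected u v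
    induction p with
    | nil => rw [hF1, hF1]; group
    | @cons u v w h p ih =>
      rw [hF2 (g • u) (g • v) (g • w), hF2 u v w, ih, hF3 _ _ (hadj g u v h), hF3 _ _ h, hag g u v h]
      group
  obtain ⟨v0⟩ : Nonempty V := hT.connected.nonempty
  refine ⟨MonoidHom.mk' (fun g => F v0 (g • v0) * c g v0) ?_, fun v => ?_⟩
  · intro g h
    show F v0 ((g * h) • v0) * c (g * h) v0 = F v0 (g • v0) * c g v0 * (F v0 (h • v0) * c h v0)
    rw [hF2 v0 (g • v0) ((g * h) • v0), mul_smul, hFg, hc]
    group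
  · obtain ⟨p, hp⟩ := hcx v
    refine ⟨F v0 v * p, fun x hx => ?_⟩
    show F v0 (x • v0) * c x v0 = _
    have h1 := hFg x v v0
    rw [hx] at h1
    rw [hF2 v0 v (x • v0), h1, hp x hx]
    have h2 : F v v0 = (F v0 v)⁻¹ := by
      rw [eq_inv_iff_mul_eq_one, ← hF2, hF1]
    rw [h2]
    group

end patch

end Pool.Agent.T2H35.FJT
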