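import Pool.Agent.T2H35.FJT.Sub

/-!
# Commensurated groups with a series with torsion-free abelian factors of finite rank
-/

set_option autoImplicit false

namespace Pool.Agent.T2H35.FJT

open MulAction
open Pool.Agent.Y110.FJ
open Pool.Agent.Y462.SS (Closed)

variable {C : ∀ (G : Type) [Group G], Prop}

/-- one abelian step -/
theorem ab_step (hC : ClosedE C) (hmet : Met C) {G : Type} [Group G] (M M' : Subgroup G) [M.Normal]
    [hM'n : M'.Normal] (hle : M ≤ M') (hab : ∀ a ∈ M', ∀ b ∈ M', a * b * a⁻¹ * b⁻¹ ∈ M)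
    (hQ : C (G ⧸ M')) : C (G ⧸ M) := by
  have hfac := Pool.Agent.R941.FJ.factor_ab hC hmet M M' hab
  obtain ⟨N, hN⟩ : ∃ N : Subgroup (G ⧸ M), N = M'.map (QuotientGroup.mk' M) := ⟨_, rfl⟩
  have hNn : N.Normal := by rw [hN]; exact Subgroup.Normal.map hM'n _ (QuotientGroup.mk'_surjective M)
  have hcyc : ∀ x : G ⧸ M, C ↥(N ⊔ Subgroup.zpowers x) := by
    intro x
    obtain ⟨g, rfl⟩ := QuotientGroup.mk'_surjective M x
    have h1 := hfac g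
    rwa [Subgroup.map_sup, MonoidHom.map_zpowers, ← hN] at h1
  have hQ' : C ((G ⧸ M) ⧸ N) := by
    subst hN
    exact Pool.Agent.R941.FJ.C_equiv hC.base
      (QuotientGroup.quotientQuotientEquivQuotient M M' hle) hQ
  refine Pool.Agent.Y529.FJ.t_ext C hC (G ⧸ M) N ?_ hQ' fun g _ => hcyc g
  exact Pool.Agent.R941.FJ.C_le hC.base le_sup_left (hcyc 1)

section series

variable {G : Type} [Group G] (A : ℕ → Subgroup G)

/-- the commutator with `u` maps a subgroup of finite index of `A j` to `A i` -/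
def Vt (j i : ℕ) (u : G) : Prop :=
  ∃ B : Subgroup G, B ≤ A j ∧ B.relIndex (A j) ≠ 0 ∧ ∀ b ∈ B, u * b * u⁻¹ * b⁻¹ ∈ A i

/-- the data -/
structure Ser (A : ℕ → Subgroup G) (r : ℕ → ℕ)
    (q : ∀ j : ℕ, A (j + 1) →* Multiplicative (Fin (r j) → ℚ)) : Prop where
  bot : A 0 = ⊥
  le : ∀ j, A j ≤ A (j + 1)
  ker : ∀ j (a : A (j + 1)), q j a = 1 ↔ (a : G) ∈ A j
  cms : ∀ j, Cms (A j)

variable {A} {r : ℕ → ℕ} {q : ∀ j : ℕ, A (j + 1) →* Multiplicative (Fin (r j) → ℚ)}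

theorem Ser.mono (S : Ser A r q) : Monotone A := monotone_nat_of_le_succ S.le

theorem Ser.isol (S : Ser A r q) {i j : ℕ} (hij : i ≤ j) {x : G} (hx : x ∈ A j) {n : ℕ} (hn : 0 < n)
    (h : x ^ n ∈ A i) : x ∈ A i := by
  induction j, hij using Nat.le_induction with
  | base => exact hx
  | succ j hij ih =>
    exact ih (FJT.isol (q j) (S.ker j) hx hn (S.mono hij h))

theorem Ser.isol_conj (S : Ser A r q) {i j : ℕ} (hij : i ≤ j) (g : G) {x : G} (hx : x ∈ A i)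
    (hgx : g * x * g⁻¹ ∈ A j) : g * x * g⁻¹ ∈ A i := by
  obtain ⟨n, hn, h⟩ := (S.cms i).pow g hx
  refine S.isol hij hgx hn ?_
  rw [conj_pow]
  exact h

/-- conjugates of subgroups of finite index -/
theorem Cms.map_rel {A B : Subgroup G} (hA : Cms A) (hB : B.relIndex A ≠ 0) (g : G) :
    (B.map (MulAut.conj g).toMonoidHom).relIndex A ≠ 0 := by
  refine Subgroup.relIndex_ne_zero_trans ?_ (hA g)
  rw [Subgroup.relIndex_map_map_of_injective _ _ (MulAut.conj g).injective]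
  exact hB

theorem mem_map_conj {B : Subgroup G} {g x : G} :
    x ∈ B.map (MulAut.conj g).toMonoidHom ↔ g⁻¹ * x * g ∈ B := by
  constructor
  · rintro ⟨y, hy, rfl⟩
    have : g⁻¹ * ((MulAut.conj g).toMonoidHom y) * g = y := by
      show g⁻¹ * (g * y * g⁻¹) * g = y
      group
    rw [this]
    exact hy
  · intro h
    refine ⟨_, h, ?_⟩
    show g * (g⁻¹ * x * g) * g⁻¹ = x
    group

theorem Ser.two (S : Ser A r q) {i j : ℕ} (hij : i ≤ j) {u v b : G} (hvb : v * b * v⁻¹ * b⁻¹ ∈ A i)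
    (hb : b ∈ A j) (hu : u * b * u⁻¹ * b⁻¹ ∈ A i)
    (huv : u * (v * b * v⁻¹) * u⁻¹ * (v * b * v⁻¹)⁻¹ ∈ A i) :
    u * (v * b * v⁻¹ * b⁻¹) * u⁻¹ ∈ A i := by
  refine S.isol_conj hij u hvb ?_
  have h1 : v * b * v⁻¹ ∈ A j := by
    have := mul_mem (S.mono hij hvb) hb
    rwa [inv_mul_cancel_right] at this
  have h2 : u * (v * b * v⁻¹) * u⁻¹ ∈ A j := by
    have := mul_mem (S.mono hij huv) h1
    rwa [inv_mul_cancel_right] at this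
  have h3 : u * b * u⁻¹ ∈ A j := by
    have := mul_mem (S.mono hij hu) hb
    rwa [inv_mul_cancel_right] at this
  have h4 : u * (v * b * v⁻¹ * b⁻¹) * u⁻¹ = (u * (v * b * v⁻¹) * u⁻¹) * (u * b * u⁻¹)⁻¹ := by group
  rw [h4]
  exact mul_mem h2 (inv_mem h3)

theorem Ser.vt_mul (S : Ser A r q) {i j : ℕ} (hij : i ≤ j) {u v : G} (hu : Vt A j i u)
    (hv : Vt A j i v) : Vt A j i (u * v) := by
  obtain ⟨B, hB, hBi, hBu⟩ := hu
  obtain ⟨D, hD, hDi, hDv⟩ := hv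
  refine ⟨(B ⊓ D) ⊓ B.map (MulAut.conj v⁻¹).toMonoidHom, inf_le_left.trans (inf_le_left.trans hB),
    Subgroup.relIndex_inf_ne_zero (Subgroup.relIndex_inf_ne_zero hBi hDi)
      ((S.cms j).map_rel hBi v⁻¹), ?_⟩
  rintro b ⟨⟨hb1, hb2⟩, hb3⟩
  replace hb3 := mem_map_conj.1 hb3
  rw [inv_inv] at hb3
  have h1 := S.two hij (hDv b hb2) (hB hb1) (hBu b hb1) (hBu _ hb3)
  have h2 : u * v * b * (u * v)⁻¹ * b⁻¹ = (u * (v * b * v⁻¹ * b⁻¹) * u⁻¹) * (u * b * u⁻¹ * b⁻¹) := by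
    group
  rw [h2]
  exact mul_mem h1 (hBu b hb1)

theorem Ser.vt_inv (S : Ser A r q) {i j : ℕ} {u : G} (hu : Vt A j i u) : Vt A j i u⁻¹ := by
  obtain ⟨B, hB, hBi, hBu⟩ := hu
  refine ⟨B ⊓ B.map (MulAut.conj u).toMonoidHom, inf_le_left.trans hB,
    Subgroup.relIndex_inf_ne_zero hBi ((S.cms j).map_rel hBi u), ?_⟩
  rintro b ⟨_, hb2⟩
  replace hb2 := mem_map_conj.1 hb2
  have h1 := inv_mem (hBu _ hb2)
  have h2 : (u * (u⁻¹ * b * u) * u⁻¹ * (u⁻¹ * b * u)⁻¹)⁻¹ = u⁻¹ * b * u⁻¹⁻¹ * b⁻¹ := by group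
  rwa [h2] at h1

theorem Ser.vt_conj (S : Ser A r q) {i j : ℕ} (hij : i ≤ j) {u : G} (hu : Vt A j i u) (g : G) :
    Vt A j i (g * u * g⁻¹) := by
  obtain ⟨B, hB, hBi, hBu⟩ := hu
  refine ⟨(A j ⊓ B.map (MulAut.conj g).toMonoidHom) ⊓
    (A j).map (MulAut.conj (g * u * g⁻¹)⁻¹).toMonoidHom, inf_le_left.trans inf_le_left,
    Subgroup.relIndex_inf_ne_zero (Subgroup.relIndex_inf_ne_zero (by simp)
      ((S.cms j).map_rel hBi g)) (S.cms j _), ?_⟩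
  rintro b ⟨⟨hb1, hb2⟩, hb3⟩
  replace hb2 := mem_map_conj.1 hb2
  replace hb3 := mem_map_conj.1 hb3
  rw [inv_inv] at hb3
  have h1 := hBu _ hb2
  have h2 : g * (u * (g⁻¹ * b * g) * u⁻¹ * (g⁻¹ * b * g)⁻¹) * g⁻¹ =
      g * u * g⁻¹ * b * (g * u * g⁻¹)⁻¹ * b⁻¹ := by group
  rw [← h2]
  refine S.isol_conj hij g h1 ?_
  rw [h2]
  exact mul_mem hb3 (inv_mem hb1)

/-- commutators -/
theorem Ser.vt_comm (S : Ser A r q) {i j : ℕ} (hij : i + 1 ≤ j) {u v : G} (hu : Vt A j (i + 1) u)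
    (hv : Vt A j (i + 1) v)
    (hu1 : ∀ a ∈ A (i + 1), u * a * u⁻¹ ∈ A (i + 1) → u * a * u⁻¹ * a⁻¹ ∈ A i)
    (hv1 : ∀ a ∈ A (i + 1), v * a * v⁻¹ ∈ A (i + 1) → v * a * v⁻¹ * a⁻¹ ∈ A i) :
    Vt A j i (u * v * u⁻¹ * v⁻¹) := by
  obtain ⟨B, hB, hBi, hBu⟩ := hu
  obtain ⟨D, hD, hDi, hDv⟩ := hv
  obtain ⟨E, hE⟩ : ∃ E : Subgroup G, E = ((B ⊓ D) ⊓ B.map (MulAut.conj v⁻¹).toMonoidHom) ⊓
    D.map (MulAut.conj u⁻¹).toMonoidHom := ⟨_, rfl⟩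
  have hEi : E.relIndex (A j) ≠ 0 := by
    rw [hE]
    exact Subgroup.relIndex_inf_ne_zero (Subgroup.relIndex_inf_ne_zero
      (Subgroup.relIndex_inf_ne_zero hBi hDi) ((S.cms j).map_rel hBi v⁻¹))
      ((S.cms j).map_rel hDi u⁻¹)
  refine ⟨A j ⊓ E.map (MulAut.conj (v * u)).toMonoidHom, inf_le_left,
    Subgroup.relIndex_inf_ne_zero (by simp) ((S.cms j).map_rel hEi _), ?_⟩
  rintro b' ⟨_, hb'⟩
  replace hb' := mem_map_conj.1 hb'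
  obtain ⟨b, hb⟩ : ∃ b, b = (v * u)⁻¹ * b' * (v * u) := ⟨_, rfl⟩
  have hbb : b' = (v * u) * b * (v * u)⁻¹ := by rw [hb]; group
  rw [← hb, hE] at hb'
  obtain ⟨⟨⟨hb1, hb2⟩, hb3⟩, hb4⟩ := hb'
  replace hb3 := mem_map_conj.1 hb3
  replace hb4 := mem_map_conj.1 hb4
  rw [inv_inv] at hb3 hb4
  obtain ⟨x, hx⟩ : ∃ x, x = u * b * u⁻¹ * b⁻¹ := ⟨_, rfl⟩
  obtain ⟨y, hy⟩ : ∃ y, y = v * b * v⁻¹ * b⁻¹ := ⟨_, rfl⟩
  have hxA : x ∈ A (i + 1) := by rw [hx]; exact hBu b hb1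
  have hyA : y ∈ A (i + 1) := by rw [hy]; exact hDv b hb2
  have h1 : u * y * u⁻¹ ∈ A (i + 1) := by
    rw [hy]
    exact S.two hij (hDv b hb2) (hB hb1) (hBu b hb1) (hBu _ hb3)
  have h2 : v * x * v⁻¹ ∈ A (i + 1) := by
    rw [hx]
    exact S.two hij (hBu b hb1) (hB hb1) (hDv b hb2) (hDv _ hb4)
  have h3 := hu1 y hyA h1
  have h4 := hv1 x hxA h2
  have h5 : y * x * y⁻¹ * x⁻¹ ∈ A i := by
    have e1 := (S.ker i (⟨y, hyA⟩ * ⟨x, hxA⟩ * ⟨y, hyA⟩⁻¹ * ⟨x, hxA⟩⁻¹)).1 (by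
      rw [map_mul, map_mul, map_mul, map_inv, map_inv, mul_comm (q i ⟨y, hyA⟩)]
      group)
    exact e1
  have h6 : u * v * u⁻¹ * v⁻¹ * b' * (u * v * u⁻¹ * v⁻¹)⁻¹ * b'⁻¹ =
      (u * y * u⁻¹ * y⁻¹) * (y * x * y⁻¹ * x⁻¹) * (v * x * v⁻¹ * x⁻¹)⁻¹ := by
    rw [hbb, hx, hy]
    group
  rw [h6]
  exact mul_mem (mul_mem h3 h5) (inv_mem h4)

/-- trivial case of commutators -/
theorem Ser.vt_comm0 (S : Ser A r q) {j : ℕ} {u v : G} (hu : Vt A j 0 u)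
    (hv : Vt A j 0 v) : Vt A j 0 (u * v * u⁻¹ * v⁻¹) :=
  S.vt_mul (Nat.zero_le j) (S.vt_mul (Nat.zero_le j) (S.vt_mul (Nat.zero_le j) hu hv)
    (S.vt_inv hu)) (S.vt_inv hv)

/-- elements which act trivially on the factors -/
def Good (A : ℕ → Subgroup G) (c : ℕ) (u : G) : Prop :=
  ∀ j < c, ∀ a ∈ A (j + 1), u * a * u⁻¹ ∈ A (j + 1) → u * a * u⁻¹ * a⁻¹ ∈ A j

/-- the stability series -/
def Dk' (S : Ser A r q) (c : ℕ) (Z : Subgroup G) (k : ℕ) : Subgroup G where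
  carrier := {u | u ∈ Z ∧ ∀ j ≤ c, Vt A j (j - k) u}
  mul_mem' := fun {u v} hu hv => ⟨Z.mul_mem hu.1 hv.1, fun j hj =>
    S.vt_mul (Nat.sub_le j k) (hu.2 j hj) (hv.2 j hj)⟩
  one_mem' := ⟨Z.one_mem, fun j _ => ⟨A j, le_rfl, by simp, fun b _ => by simp⟩⟩
  inv_mem' := fun {u} hu => ⟨Z.inv_mem hu.1, fun j hj => S.vt_inv (hu.2 j hj)⟩

theorem mem_Dk' (S : Ser A r q) {c : ℕ} {Z : Subgroup G} {k : ℕ} {u : G} :
    u ∈ Dk' S c Z k ↔ u ∈ Z ∧ ∀ j ≤ c, Vt A j (j - k) u := Iff.rfl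

theorem Dk'_normal (S : Ser A r q) (c : ℕ) (Z : Subgroup G) [hZ : Z.Normal] (k : ℕ) :
    (Dk' S c Z k).Normal := by
  refine ⟨fun u hu g => ?_⟩
  rw [mem_Dk'] at hu ⊢
  exact ⟨hZ.conj_mem u hu.1 g, fun j hj => S.vt_conj (Nat.sub_le j k) (hu.2 j hj) g⟩

theorem Dk'_le (S : Ser A r q) (c : ℕ) (Z : Subgroup G) (k : ℕ) :
    Dk' S c Z (k + 1) ≤ Dk' S c Z k := by
  intro u hu
  rw [mem_Dk'] at hu ⊢
  refine ⟨hu.1, fun j hj => ?_⟩
  obtain ⟨B, hB, hBi, hBu⟩ := hu.2 j hj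
  exact ⟨B, hB, hBi, fun b hb => S.mono (by omega) (hBu b hb)⟩

theorem Dk'_comm (S : Ser A r q) (c : ℕ) (Z : Subgroup G) (hg : ∀ z ∈ Z, Good A c z)
    (k : ℕ) (hk : 0 < k) :
    ∀ u ∈ Dk' S c Z k, ∀ v ∈ Dk' S c Z k, u * v * u⁻¹ * v⁻¹ ∈ Dk' S c Z (k + 1) := by
  intro u hu v hv
  rw [mem_Dk'] at hu hv ⊢
  refine ⟨Z.mul_mem (Z.mul_mem (Z.mul_mem hu.1 hv.1) (Z.inv_mem hu.1)) (Z.inv_mem hv.1),
    fun j hj => ?_⟩
  obtain hjk | hjk := Nat.lt_or_ge k j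
  · obtain ⟨i, hi⟩ : ∃ i, j - k = i + 1 := ⟨j - k - 1, by omega⟩
    have hu' := hu.2 j hj
    have hv' := hv.2 j hj
    rw [hi] at hu' hv'
    have e : j - (k + 1) = i := by omega
    rw [e]
    exact S.vt_comm (by omega) hu' hv' (hg u hu.1 i (by omega)) (hg v hv.1 i (by omega))
  · have hu' := hu.2 j hj
    have hv' := hv.2 j hj
    have e : j - k = 0 := by omega
    have e' : j - (k + 1) = 0 := by omega
    rw [e] at hu' hv'
    rw [e']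
    exact S.vt_comm0 hu' hv'

theorem Dk'_one (S : Ser A r q) (c : ℕ) (Z : Subgroup G) (hg : ∀ z ∈ Z, Good A c z) :
    Dk' S c Z 1 = Z := by
  refine le_antisymm (fun u hu => hu.1) fun u hu => ?_
  rw [mem_Dk']
  refine ⟨hu, fun j hj => ?_⟩
  cases j with
  | zero =>
    refine ⟨⊥, bot_le, ?_, fun b hb => ?_⟩
    · rw [S.bot]; simp
    · rw [Subgroup.mem_bot] at hb
      rw [hb]
      simp
  | succ j =>
    refine ⟨A (j + 1) ⊓ (A (j + 1)).map (MulAut.conj u⁻¹).toMonoidHom, inf_le_left,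
      Subgroup.relIndex_inf_ne_zero (by simp) (S.cms _ _), ?_⟩
    rintro b ⟨hb1, hb2⟩
    replace hb2 := mem_map_conj.1 hb2
    rw [inv_inv] at hb2
    exact hg u hu j (by omega) b hb1 hb2

theorem exists_good (hC : ClosedE C) (hGL : ∀ n : ℕ, C (Matrix (Fin n) (Fin n) ℚ)ˣ)
    (S : Ser A r q) (c : ℕ) : ∃ (Z : Subgroup G) (_ : Z.Normal), C (G ⧸ Z) ∧ ∀ z ∈ Z, Good A c z := by
  induction c with
  | zero =>
    refine ⟨⊤, inferInstance, ?_, fun z _ j hj => absurd hj (Nat.not_lt_zero j)⟩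
    refine hC.base.of_injective _ _ (1 : G ⧸ (⊤ : Subgroup G) →* Multiplicative ℤ) ?_ hC.base.int
    intro x y _
    have := QuotientGroup.subsingleton_quotient_top (G := G)
    exact Subsingleton.elim x y
  | succ c ih =>
    obtain ⟨Z, hZn, hZ, hZg⟩ := ih
    obtain ⟨Y, hYn, hY, hYg⟩ := exists_ker (q c) (S.ker c) hC.base hGL (S.cms (c + 1)) (S.cms c)
    refine ⟨Z ⊓ Y, inferInstance, quot_inf hC.base Z Y hZ hY, fun z hz j hj => ?_⟩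
    obtain hj' | hj' := Nat.lt_succ_iff_lt_or_eq.1 hj
    · exact hZg z hz.1 j hj'
    · subst hj'
      exact hYg z hz.2

theorem C_of_eq {H K : Subgroup G} [hH : H.Normal] [hK : K.Normal] (h : H = K) (hC : C (G ⧸ K)) :
    C (G ⧸ H) := by
  subst h
  exact hC

/-- **the virtual centralizer** -/
theorem exists_cent (hC : ClosedE C) (hmet : Met C) (hGL : ∀ n : ℕ, C (Matrix (Fin n) (Fin n) ℚ)ˣ)
    (S : Ser A r q) (c : ℕ) : ∃ (Z : Subgroup G) (_ : Z.Normal), C (G ⧸ Z) ∧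
      ∀ z ∈ Z, (Subgroup.centralizer {z}).relIndex (A c) ≠ 0 := by
  obtain ⟨Z, hZn, hZ, hZg⟩ := exists_good hC hGL S c
  have hstep : ∀ k : ℕ, ∃ _ : (Dk' S c Z (k + 1)).Normal, C (G ⧸ Dk' S c Z (k + 1)) := by
    intro k
    induction k with
    | zero =>
      have hn := Dk'_normal S c Z (0 + 1)
      have e : Dk' S c Z (0 + 1) = Z := Dk'_one S c Z hZg
      exact ⟨hn, C_of_eq e hZ⟩
    | succ k ih =>
      obtain ⟨hn, hk⟩ := ih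
      have hn' := Dk'_normal S c Z (k + 1 + 1)
      exact ⟨hn', ab_step hC hmet _ _ (Dk'_le S c Z (k + 1))
        (Dk'_comm S c Z hZg (k + 1) (Nat.succ_pos k)) hk⟩
  cases c with
  | zero =>
    refine ⟨Z, hZn, hZ, fun z _ => ?_⟩
    rw [S.bot]
    simp
  | succ c =>
    obtain ⟨hn, hk⟩ := hstep c
    refine ⟨_, hn, hk, fun z hz => ?_⟩
    obtain ⟨B, hB, hBi, hBz⟩ := ((mem_Dk' S).1 hz).2 (c + 1) le_rfl
    refine fun h0 => hBi (Subgroup.relIndex_eq_zero_of_le_left ?_ h0)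
    intro b hb
    have h1 := hBz b hb
    rw [Nat.sub_self, S.bot, Subgroup.mem_bot] at h1
    rw [Subgroup.mem_centralizer_singleton_iff]
    have h2 : z * b * z⁻¹ = b := mul_inv_eq_one.1 h1
    exact (mul_inv_eq_iff_eq_mul.1 h2).symm

end series

end Pool.Agent.T2H35.FJT
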