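import Pool.Agent.T2H35.FJT.Main

/-!
# The rational representation on a commensurated subquotient
-/

set_option autoImplicit false

namespace Pool.Agent.T2H35.FJT

open MulAction
open Pool.Agent.Y110.FJ
open Pool.Agent.Y462.SS (Closed)

set_option linter.unusedSectionVars false

/-- all conjugates of the subgroup are commensurable with it -/
def Cms {G : Type} [Group G] (A : Subgroup G) : Prop :=
  ∀ g : G, (A.map (MulAut.conj g).toMonoidHom).relIndex A ≠ 0

theorem Cms.pow {G : Type} [Group G] {A : Subgroup G} (h : Cms A) (g : G) {a : G} (ha : a ∈ A) :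
    ∃ n : ℕ, 0 < n ∧ g * a ^ n * g⁻¹ ∈ A := by
  obtain ⟨n, hn, hm⟩ := ex_pow (h g⁻¹) ha
  obtain ⟨y, hy, hya⟩ := hm
  refine ⟨n, hn, ?_⟩
  rw [← hya]
  have : g * ((MulAut.conj g⁻¹).toMonoidHom y) * g⁻¹ = y := by
    show g * (g⁻¹ * y * g⁻¹⁻¹) * g⁻¹ = y
    group
  rw [this]
  exact hy

section lin

variable {G U : Type} [Group G] [AddCommGroup U] [Module ℚ U] {A A' : Subgroup G}
  (q : A →* Multiplicative U)

/-- the additive form of `q` -/
def qa (a : A) : U := Multiplicative.toAdd (q a)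

theorem qa_mul (a b : A) : qa q (a * b) = qa q a + qa q b := by
  unfold qa; rw [map_mul]; rfl

theorem qa_pow (a : A) (n : ℕ) : qa q (a ^ n) = n • qa q a := by
  unfold qa; rw [map_pow]; rfl

theorem qa_inv (a : A) : qa q a⁻¹ = - qa q a := by
  unfold qa; rw [map_inv]; rfl

variable (hq : ∀ a : A, q a = 1 ↔ (a : G) ∈ A')

include hq

theorem qa_eq_zero (a : A) : qa q a = 0 ↔ (a : G) ∈ A' := by
  rw [← hq a]
  exact Iff.rfl

theorem qa_eq (a b : A) : qa q a = qa q b ↔ (a : G) * (b : G)⁻¹ ∈ A' := by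
  have h := qa_eq_zero q hq (a * b⁻¹)
  rw [qa_mul, qa_inv, ← sub_eq_add_neg, sub_eq_zero] at h
  exact h

theorem nsmul_cancel {k : ℕ} (hk : 0 < k) {w w' : U} (h : k • w = k • w') : w = w' := by
  have hk' : (k : ℚ) ≠ 0 := by exact_mod_cast hk.ne'
  have h1 : (k : ℚ) • w = (k : ℚ) • w' := by rw [Nat.cast_smul_eq_nsmul, Nat.cast_smul_eq_nsmul, h]
  exact smul_right_injective U hk' h1

/-- isolation -/
theorem isol {x : G} (hx : x ∈ A) {n : ℕ} (hn : 0 < n) (h : x ^ n ∈ A') : x ∈ A' := by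
  have h1 : qa q (⟨x, hx⟩ ^ n) = 0 := (qa_eq_zero q hq _).2 h
  rw [qa_pow] at h1
  have h2 : qa q ⟨x, hx⟩ = 0 := nsmul_cancel q hq hn (by rw [h1, smul_zero])
  exact (qa_eq_zero q hq _).1 h2

/-- elements of conjugates of the smaller group in the larger group are in the smaller group -/
theorem isol_conj (hA' : Cms A') (g : G) {x : G} (hx : x ∈ A') (hgx : g * x * g⁻¹ ∈ A) :
    g * x * g⁻¹ ∈ A' := by
  obtain ⟨n, hn, h⟩ := hA'.pow g hx
  refine isol q hq hgx hn ?_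
  rw [conj_pow]
  exact h

omit hq in
/-- the relation given by conjugation -/
def Rq (g : G) (w w' : U) : Prop := ∃ k : ℕ, 0 < k ∧ ∃ a a' : A, k • w = qa q a ∧ k • w' = qa q a' ∧
  g * (a : G) * g⁻¹ = a'

theorem Rq_unique (hA' : Cms A') {g : G} {w w' w'' : U} (h1 : Rq q g w w')
    (h2 : Rq q g w w'') : w' = w'' := by
  obtain ⟨k, hk, a, a', e1, e2, e3⟩ := h1
  obtain ⟨n, hn, b, b', f1, f2, f3⟩ := h2
  have h3 : qa q (a ^ n) = qa q (b ^ k) := by
    rw [qa_pow, qa_pow, ← e1, ← f1, smul_smul, smul_smul, mul_comm]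
  have h4 := (qa_eq q hq _ _).1 h3
  have h5 : qa q (a' ^ n) = qa q (b' ^ k) := by
    rw [qa_eq q hq]
    have h6 : ((a' ^ n : A) : G) * ((b' ^ k : A) : G)⁻¹ =
        g * (((a ^ n : A) : G) * ((b ^ k : A) : G)⁻¹) * g⁻¹ := by
      push_cast
      rw [← e3, ← f3, conj_pow, conj_pow]
      group
    have h7 := isol_conj q hq hA' g h4
    rw [← h6] at h7
    exact h7 (mul_mem (a' ^ n).2 (inv_mem (b' ^ k).2))
  rw [qa_pow, qa_pow, ← e2, ← f2, smul_smul, smul_smul, mul_comm k n] at h5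
  exact nsmul_cancel q hq (by positivity) h5

omit hq in
theorem Rq_add {g : G} {w w' u u' : U} (h1 : Rq q g w w') (h2 : Rq q g u u') :
    Rq q g (w + u) (w' + u') := by
  obtain ⟨k, hk, a, a', e1, e2, e3⟩ := h1
  obtain ⟨n, hn, b, b', f1, f2, f3⟩ := h2
  refine ⟨n * k, by positivity, a ^ n * b ^ k, a' ^ n * b' ^ k, ?_, ?_, ?_⟩
  · rw [smul_add, mul_smul, e1, mul_comm n k, mul_smul, f1, qa_mul, qa_pow, qa_pow]
  · rw [smul_add, mul_smul, e2, mul_comm n k, mul_smul, f2, qa_mul, qa_pow, qa_pow]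
  · push_cast
    rw [← e3, ← f3, conj_pow, conj_pow]
    group

theorem Rq_mul (hA : Cms A) {g h : G} {w w' w'' : U} (h1 : Rq q h w w') (h2 : Rq q g w' w'')
    (hA' : Cms A') : Rq q (g * h) w w'' := by
  obtain ⟨k, hk, a, a', e1, e2, e3⟩ := h1
  obtain ⟨n, hn, b, b', f1, f2, f3⟩ := h2
  -- pass to a power of `a'` which is conjugated into `A` by `g`
  obtain ⟨m, hm, hmA⟩ := hA.pow g (a' ^ n).2
  refine ⟨m * (n * k), by positivity, (a ^ n) ^ m, ⟨_, hmA⟩, ?_, ?_, ?_⟩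
  · rw [mul_smul, mul_smul, e1, qa_pow, qa_pow]
  · have h3 : Rq q g ((m * (n * k)) • w') (qa q ⟨_, hmA⟩) := by
      refine ⟨1, one_pos, (a' ^ n) ^ m, ⟨_, hmA⟩, ?_, one_smul _ _, ?_⟩
      · rw [one_smul, qa_pow, qa_pow, ← e2, smul_smul, smul_smul]
        congr 1
        ring
      · push_cast; rfl
    have h4 : Rq q g ((m * (n * k)) • w') ((m * (n * k)) • w'') := by
      refine ⟨n, hn, b ^ (m * (n * k)), b' ^ (m * (n * k)), ?_, ?_, ?_⟩
      · rw [qa_pow, ← f1, smul_smul, smul_smul]; congr 1; ring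
      · rw [qa_pow, ← f2, smul_smul, smul_smul]; congr 1; ring
      · push_cast
        rw [← f3, conj_pow]
    exact Rq_unique q hq hA' h4 h3
  · push_cast
    have h3 : (a' : G) = h * a * h⁻¹ := e3.symm
    show g * h * (((a : G) ^ n) ^ m) * (g * h)⁻¹ = g * (((a' : G) ^ n)) ^ m * g⁻¹
    rw [h3, conj_pow, conj_pow]
    group

omit hq in
theorem mem_span_range {w : U} (hw : w ∈ Submodule.span ℚ (Set.range (qa q))) :
    ∃ k : ℕ, 0 < k ∧ ∃ a : A, k • w = qa q a := by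
  induction hw using Submodule.span_induction with
  | mem x hx =>
    obtain ⟨a, ha⟩ := hx
    exact ⟨1, one_pos, a, by rw [one_smul, ha]⟩
  | zero =>
    refine ⟨1, one_pos, 1, ?_⟩
    rw [smul_zero]
    have h := qa_mul q 1 1
    rw [mul_one] at h
    exact (left_eq_add.1 h).symm
  | add x y _ _ hx hy =>
    obtain ⟨k, hk, a, h1⟩ := hx
    obtain ⟨n, hn, b, h2⟩ := hy
    refine ⟨n * k, by positivity, a ^ n * b ^ k, ?_⟩
    rw [smul_add, mul_smul, mul_comm n k, mul_smul, h1, h2, qa_mul, qa_pow, qa_pow]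
  | smul t x _ hx =>
    obtain ⟨k, hk, a, h1⟩ := hx
    refine ⟨t.den * k, Nat.mul_pos t.den_pos hk, a ^ t.num, ?_⟩
    have h3 : qa q (a ^ t.num) = t.num • qa q a := by
      unfold qa; rw [map_zpow]; rfl
    have h2 : (t.den * k) • (t • x) = t.num • (k • x) := by
      rw [← Nat.cast_smul_eq_nsmul ℚ, ← Nat.cast_smul_eq_nsmul ℚ k, ← Int.cast_smul_eq_zsmul ℚ,
        smul_smul, smul_smul]
      congr 1
      push_cast
      have := Rat.den_mul_eq_num t
      linear_combination (k : ℚ) * this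
    rw [h2, h3, h1]

omit hq in
theorem Rq_exists (hA : Cms A) (g : G) (w : Submodule.span ℚ (Set.range (qa q))) :
    ∃ w' : Submodule.span ℚ (Set.range (qa q)), Rq q g w w' := by
  obtain ⟨k, hk, a, h⟩ := mem_span_range q w.2
  obtain ⟨n, hn, hm⟩ := hA.pow g a.2
  have hnk : ((n * k : ℕ) : ℚ) ≠ 0 := by
    have : 0 < n * k := by positivity
    exact_mod_cast this.ne'
  refine ⟨⟨((n * k : ℕ) : ℚ)⁻¹ • qa q ⟨_, hm⟩, ?_⟩, n * k, by positivity, a ^ n, ⟨_, hm⟩, ?_, ?_, ?_⟩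
  · exact Submodule.smul_mem _ _ (Submodule.subset_span ⟨_, rfl⟩)
  · rw [mul_smul, h, qa_pow]
  · show (n * k) • (((n * k : ℕ) : ℚ)⁻¹ • qa q ⟨_, hm⟩) = _
    rw [← Nat.cast_smul_eq_nsmul ℚ, smul_smul, mul_inv_cancel₀ hnk, one_smul]
  · push_cast; rfl

/-- the rational representation -/
theorem exists_rep (hA : Cms A) (hA' : Cms A') :
    ∃ Φ : G →* Module.End ℚ (Submodule.span ℚ (Set.range (qa q))),
      ∀ (g : G) (w : Submodule.span ℚ (Set.range (qa q))), Rq q g w (Φ g w) := by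
  have hex := Rq_exists q hA
  choose φ hφ using hex
  have huniq : ∀ (g : G) (w w' : Submodule.span ℚ (Set.range (qa q))), Rq q g w w' → φ g w = w' :=
    fun g w w' h => Subtype.ext (Rq_unique q hq hA' (hφ g w) h)
  let f : G → Module.End ℚ (Submodule.span ℚ (Set.range (qa q))) := fun g =>
    AddMonoidHom.toRatLinearMap
      (AddMonoidHom.mk' (φ g) fun w u => huniq g _ _ (Rq_add q (hφ g w) (hφ g u)))
  have hf : ∀ g w, f g w = φ g w := fun g w => rfl
  refine ⟨{ toFun := f, map_one' := ?_, map_mul' := ?_ }, fun g w => hφ g w⟩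
  · refine LinearMap.ext fun w => ?_
    rw [hf]
    obtain ⟨k, hk, a, h⟩ := mem_span_range q w.2
    exact huniq 1 w w ⟨k, hk, a, a, h, h, by group⟩
  · intro g h
    refine LinearMap.ext fun w => ?_
    rw [hf]
    exact huniq _ _ _ (Rq_mul q hq hA (hφ h w) (hφ g (φ h w)) hA')

/-- the kernel of the representation -/
theorem exists_ker {C : ∀ (G : Type) [Group G], Prop} (hC : Closed C)
    (hGL : ∀ n : ℕ, C (Matrix (Fin n) (Fin n) ℚ)ˣ) [FiniteDimensional ℚ U]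
    (hA : Cms A) (hA' : Cms A') : ∃ (Z : Subgroup G) (_ : Z.Normal), C (G ⧸ Z) ∧
      ∀ z ∈ Z, ∀ a ∈ A, z * a * z⁻¹ ∈ A → z * a * z⁻¹ * a⁻¹ ∈ A' := by
  obtain ⟨Φ, hΦ⟩ := exists_rep q hq hA hA'
  let e := LinearMap.toMatrixAlgEquiv (Module.finBasis ℚ (Submodule.span ℚ (Set.range (qa q))))
  let θ : G →* (Matrix (Fin (Module.finrank ℚ (Submodule.span ℚ (Set.range (qa q)))))
      (Fin (Module.finrank ℚ (Submodule.span ℚ (Set.range (qa q))))) ℚ)ˣ :=
    (Units.map (e : Module.End ℚ (Submodule.span ℚ (Set.range (qa q))) ≃* _).toMonoidHom).comp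
      Φ.toHomUnits
  have hθ : ∀ g, θ g = 1 → Φ g = 1 := by
    intro g h
    have h1 : e (Φ g) = 1 := congrArg Units.val h
    exact e.injective (h1.trans (map_one e).symm)
  refine ⟨θ.ker, inferInstance, hC.of_injective _ _ (QuotientGroup.kerLift θ)
    (QuotientGroup.kerLift_injective θ) (hGL _), fun z hz a ha hza => ?_⟩
  have h1 := hΦ z ⟨qa q ⟨a, ha⟩, Submodule.subset_span ⟨_, rfl⟩⟩
  rw [hθ z hz] at h1
  have h2 : Rq q z (qa q ⟨a, ha⟩) (qa q ⟨_, hza⟩) :=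
    ⟨1, one_pos, ⟨a, ha⟩, ⟨_, hza⟩, one_smul _ _, one_smul _ _, rfl⟩
  have h3 : qa q ⟨_, hza⟩ = qa q ⟨a, ha⟩ := Rq_unique q hq hA' h2 h1
  exact (qa_eq q hq _ _).1 h3

end lin

end Pool.Agent.T2H35.FJT
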